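import Pool.Agent.JM.Reiter

/-!
# Amenability
-/

namespace Pool.Agent.JM

open Filter

universe u

/-- A group is amenable if there is a finitely additive left invariant probability measure on the
family of all its subsets. -/
def Amenable (G : Type u) [Group G] : Prop :=
  ∃ m : Set G → ℝ, (∀ A, 0 ≤ m A) ∧ m Set.univ = 1 ∧
    (∀ A B, Disjoint A B → m (A ∪ B) = m A + m B) ∧
    ∀ (g : G) (A : Set G), m ((fun x => g * x) '' A) = m A

theorem amenable_of_ainv {G : Type u} [Group G]
    (h : ∀ (S : Finset G) (ε : ℝ), 0 < ε → AInv (S : Set G) ε) : Amenable G := by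
  classical
  have h1 : ∀ i : Finset G × ℕ, ∃ L : (G → ℝ) → ℝ, FinMean L ∧ ∀ s ∈ i.1, ∀ φ : G → ℝ,
      (∀ x, |φ x| ≤ 1) → |L (fun x => φ (s * x)) - L φ| ≤ 1 / ((i.2 : ℝ) + 1) :=
    fun i => h i.1 _ (by positivity)
  choose L hL hinv using h1
  let U : Ultrafilter (Finset G × ℕ) := Ultrafilter.of atTop
  have hU : (U : Filter (Finset G × ℕ)) ≤ atTop := Ultrafilter.of_le _
  -- indicator functions
  let χ : Set G → G → ℝ := fun A => A.indicator fun _ => 1
  have hχ : ∀ A x, |χ A x| ≤ 1 := by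
    intro A x
    by_cases hx : x ∈ A
    · simp [χ, hx]
    · simp [χ, hx]
  have hbd : ∀ A i, L i (χ A) ∈ Set.Icc (0 : ℝ) 1 := by
    intro A i
    refine ⟨?_, (le_abs_self _).trans ((hL i).abs_le (hχ A))⟩
    obtain ⟨ι, _, p, x, hp, hs, hLi⟩ := hL i
    rw [hLi]
    refine Finset.sum_nonneg fun j _ => mul_nonneg (hp j) ?_
    by_cases hx : x j ∈ A
    · simp [χ, hx]
    · simp [χ, hx]
  have hlim : ∀ A, ∃ c ∈ Set.Icc (0 : ℝ) 1, Tendsto (fun i => L i (χ A)) U (nhds c) := by
    intro A
    have h2 := (isCompact_Icc (a := (0 : ℝ)) (b := 1)).ultrafilter_le_nhds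
      (U.map fun i => L i (χ A)) (by
        rw [le_principal_iff]
        show ∀ᶠ i in (U : Filter (Finset G × ℕ)), L i (χ A) ∈ Set.Icc (0 : ℝ) 1
        exact Eventually.of_forall (hbd A))
    exact h2
  choose m hm1 hm2 using hlim
  refine ⟨m, fun A => (hm1 A).1, ?_, ?_, ?_⟩
  · have h2 : ∀ i, L i (χ Set.univ) = 1 := by
      intro i
      obtain ⟨ι, _, p, x, hp, hs, hLi⟩ := hL i
      rw [hLi, ← hs]
      refine Finset.sum_congr rfl fun j _ => by simp [χ]
    have h3 := hm2 Set.univ
    simp only [h2] at h3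
    exact tendsto_nhds_unique h3 tendsto_const_nhds
  · intro A B hAB
    have h2 : ∀ i, L i (χ (A ∪ B)) = L i (χ A) + L i (χ B) := by
      intro i
      obtain ⟨ι, _, p, x, hp, hs, hLi⟩ := hL i
      rw [hLi, hLi, hLi, ← Finset.sum_add_distrib]
      refine Finset.sum_congr rfl fun j _ => ?_
      rw [← mul_add]
      congr 1
      show (A ∪ B).indicator (fun _ => (1 : ℝ)) (x j) = _
      rw [Set.indicator_union_of_disjoint hAB]
    have h3 := hm2 (A ∪ B)
    simp only [h2] at h3
    exact tendsto_nhds_unique h3 ((hm2 A).add (hm2 B))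
  · intro g A
    have h2 : χ ((fun x => g * x) '' A) = fun x => χ A (g⁻¹ * x) := by
      funext x
      have : x ∈ (fun x => g * x) '' A ↔ g⁻¹ * x ∈ A := by
        constructor
        · rintro ⟨y, hy, rfl⟩
          simpa using hy
        · intro hx
          exact ⟨_, hx, by simp⟩
      by_cases hx : g⁻¹ * x ∈ A
      · simp [χ, hx]
      · simp [χ, hx]
    have h3 : Tendsto (fun i => L i (χ ((fun x => g * x) '' A)) - L i (χ A)) U (nhds 0) := by
      rw [tendsto_zero_iff_abs_tendsto_zero]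
      have h4 : Tendsto (fun i : Finset G × ℕ => 1 / ((i.2 : ℝ) + 1)) U (nhds 0) := by
        have h5 : Tendsto (fun n : ℕ => 1 / ((n : ℝ) + 1)) atTop (nhds 0) :=
          tendsto_one_div_add_atTop_nhds_zero_nat
        have h6 : Tendsto (fun i : Finset G × ℕ => i.2) atTop atTop := by
          rw [← prod_atTop_atTop_eq]
          exact tendsto_snd
        exact (h5.comp h6).mono_left hU
      refine squeeze_zero' (Eventually.of_forall fun i => abs_nonneg _) ?_ h4
      have h7 : ∀ᶠ i : Finset G × ℕ in atTop, g⁻¹ ∈ i.1 := by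
        filter_upwards [eventually_ge_atTop (({g⁻¹} : Finset G), 0)] with i hi
        exact hi.1 (Finset.mem_singleton_self _)
      filter_upwards [hU h7] with i hi
      show |L i (χ ((fun x => g * x) '' A)) - L i (χ A)| ≤ 1 / ((i.2 : ℝ) + 1)
      rw [h2]
      exact hinv i _ hi _ (hχ A)
    have h4 := (hm2 ((fun x => g * x) '' A)).sub (hm2 A)
    have h5 := tendsto_nhds_unique h3 h4
    linarith

end Pool.Agent.JM
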