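import Mathlib

/-!
# Integer powers and recurrence
-/

namespace Pool.Agent.JM

open MeasureTheory Filter Set

variable {X : Type*} [MeasurableSpace X]

/-- the integer powers of `T` -/
def pw (T : X ≃ᵐ X) (n : ℤ) (x : X) : X := ((T.toEquiv : Equiv.Perm X) ^ n) x

lemma pw_zero (T : X ≃ᵐ X) (x : X) : pw T 0 x = x := by simp [pw]

lemma pw_add (T : X ≃ᵐ X) (m n : ℤ) (x : X) : pw T (m + n) x = pw T m (pw T n x) := by
  simp [pw, zpow_add]

lemma pw_nat (T : X ≃ᵐ X) (n : ℕ) : pw T n = T^[n] := by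
  funext x
  unfold pw
  rw [zpow_natCast, ← Equiv.Perm.iterate_eq_pow]
  rfl

lemma pw_neg (T : X ≃ᵐ X) (n : ℕ) : pw T (-n) = T.symm^[n] := by
  funext x
  unfold pw
  rw [zpow_neg, zpow_natCast, ← inv_pow, ← Equiv.Perm.iterate_eq_pow]
  rfl

lemma mp_pw {μ : Measure X} {T : X ≃ᵐ X} (hT : MeasurePreserving T μ μ) (n : ℤ) :
    MeasurePreserving (pw T n) μ μ := by
  obtain ⟨k, rfl | rfl⟩ := n.eq_nat_or_neg
  · rw [pw_nat]; exact hT.iterate k
  · rw [pw_neg]; exact (hT.symm T).iterate k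

lemma measurable_pw (T : X ≃ᵐ X) (n : ℤ) : Measurable (pw T n) := by
  obtain ⟨k, rfl | rfl⟩ := n.eq_nat_or_neg
  · rw [pw_nat]; exact T.measurable.iterate k
  · rw [pw_neg]; exact T.symm.measurable.iterate k

/-- a property that holds almost everywhere holds on almost every orbit -/
lemma ae_pw {μ : Measure X} {T : X ≃ᵐ X} (hT : MeasurePreserving T μ μ) {p : X → Prop}
    (h : ∀ᵐ x ∂μ, p x) : ∀ᵐ x ∂μ, ∀ n : ℤ, p (pw T n x) := by
  rw [ae_all_iff]
  intro n
  exact (mp_pw hT n).quasiMeasurePreserving.ae h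

lemma frequently_of_ergodic {μ : Measure X} [IsProbabilityMeasure μ] {f : X → X}
    (hf : Ergodic f μ) {A : Set X} (hA : MeasurableSet A) (hA0 : μ A ≠ 0) :
    ∀ᵐ x ∂μ, ∃ᶠ n in atTop, f^[n] x ∈ A := by
  set B : Set X := {x | ∃ᶠ n in atTop, f^[n] x ∈ A} with hB
  have hBm : MeasurableSet B := by
    have : B = limsup (fun n => f^[n] ⁻¹' A) atTop := by
      ext x
      rw [mem_limsup_iff_frequently_mem]
      rfl
    rw [this]
    exact MeasurableSet.measurableSet_limsup fun n => (hf.measurable.iterate n) hA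
  have hBinv : f ⁻¹' B = B := by
    ext x
    show (∃ᶠ n in atTop, f^[n] (f x) ∈ A) ↔ ∃ᶠ n in atTop, f^[n] x ∈ A
    rw [frequently_atTop, frequently_atTop]
    constructor
    · intro h N
      obtain ⟨n, hn, h1⟩ := h N
      exact ⟨n + 1, by omega, by rw [Function.iterate_succ_apply]; exact h1⟩
    · intro h N
      obtain ⟨n, hn, h1⟩ := h (N + 1)
      refine ⟨n - 1, by omega, ?_⟩
      rw [← Function.iterate_succ_apply, Nat.succ_eq_add_one, Nat.sub_add_cancel (by omega)]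
      exact h1
  have hAB : ∀ᵐ x ∂μ, x ∈ A → x ∈ B :=
    hf.toMeasurePreserving.conservative.ae_mem_imp_frequently_image_mem hA.nullMeasurableSet
  have hB0 : μ B ≠ 0 := by
    intro h0
    apply hA0
    have h1 : μ A ≤ μ B := measure_mono_ae hAB
    rw [h0] at h1
    exact le_antisymm h1 bot_le
  rcases hf.toPreErgodic.measure_self_or_compl_eq_zero hBm hBinv with h | h
  · exact absurd h hB0
  · exact measure_eq_zero_iff_ae_notMem.1 h |>.mono fun x hx => not_not.1 hx

/-- two-sided recurrence -/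
lemma recurrence {μ : Measure X} [IsProbabilityMeasure μ] {T : X ≃ᵐ X}
    (hT : Ergodic T μ) {A : Set X} (hA : MeasurableSet A) (hA0 : μ A ≠ 0) :
    ∀ᵐ x ∂μ, ∀ N : ℤ, (∃ m, N ≤ m ∧ pw T m x ∈ A) ∧ ∃ m, m ≤ N ∧ pw T m x ∈ A := by
  filter_upwards [frequently_of_ergodic hT hA hA0,
    frequently_of_ergodic (f := T.symm) hT.symm hA hA0] with x h1 h2 N
  constructor
  · obtain ⟨n, hn, h3⟩ := (frequently_atTop.1 h1) N.toNat
    refine ⟨n, ?_, ?_⟩
    · have := Int.self_le_toNat N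
      have h4 : (N.toNat : ℤ) ≤ n := by exact_mod_cast hn
      linarith
    · rw [pw_nat]; exact h3
  · obtain ⟨n, hn, h3⟩ := (frequently_atTop.1 h2) (-N).toNat
    refine ⟨-n, ?_, ?_⟩
    · have := Int.self_le_toNat (-N)
      have h4 : ((-N).toNat : ℤ) ≤ n := by exact_mod_cast hn
      linarith
    · rw [pw_neg]; exact h3

end Pool.Agent.JM
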