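import Pool.Agent.JM.Cuts
import Pool.Agent.JM.Dyn

/-!
# The measured system
-/

namespace Pool.Agent.JM

open MeasureTheory Filter Set

universe u v

variable {X : Type u} [MeasurableSpace X]

/-- A group `G` of normalising unitaries: `g` acts as `(u_g ξ)(x) = f g x • ξ (T ^ (a g x) x)`. -/
structure Sys (μ : Measure X) (T : X ≃ᵐ X) {G : Type v} [Group G] (a : G → X → ℤ)
    (f : G → X → ℂ) : Prop where
  meas_a : ∀ g, Measurable (a g)
  meas_f : ∀ g, Measurable (f g)
  norm_f : ∀ g, ∀ᵐ x ∂μ, ‖f g x‖ = 1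
  coc : ∀ g h, ∀ᵐ x ∂μ, a (g * h) x = a g x + a h (pw T (a g x) x) ∧
    f (g * h) x = f g x * f h (pw T (a g x) x)
  one : ∀ᵐ x ∂μ, a 1 x = 0 ∧ f 1 x = 1
  cross : ∀ g, ∀ᵐ x ∂μ, {j : ℤ | ¬ (0 ≤ j ↔ 0 ≤ j + a g (pw T j x))}.Finite

section

variable {μ : Measure X} {T : X ≃ᵐ X} {G : Type v} [Group G] {a : G → X → ℤ} {f : G → X → ℂ}

/-- the position of the image of the point `T^j x` -/
def pos (T : X ≃ᵐ X) (a : G → X → ℤ) (g : G) (x : X) (j : ℤ) : ℤ := j + a g (pw T j x)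

/-- the points where all identities hold along the orbit -/
structure GoodPt (T : X ≃ᵐ X) (a : G → X → ℤ) (f : G → X → ℂ) (x : X) : Prop where
  coc : ∀ (j : ℤ) (g h : G),
    a (g * h) (pw T j x) = a g (pw T j x) + a h (pw T (a g (pw T j x)) (pw T j x)) ∧
    f (g * h) (pw T j x) = f g (pw T j x) * f h (pw T (a g (pw T j x)) (pw T j x))
  one : ∀ j : ℤ, a 1 (pw T j x) = 0 ∧ f 1 (pw T j x) = 1
  cross : ∀ (j : ℤ) (g : G),
    {i : ℤ | ¬ (0 ≤ i ↔ 0 ≤ i + a g (pw T i (pw T j x)))}.Finite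

lemma Sys.ae_good [Countable G] (h : Sys μ T a f) (hT : MeasurePreserving T μ μ) :
    ∀ᵐ x ∂μ, GoodPt T a f x := by
  have h1 : ∀ᵐ x ∂μ, ∀ (j : ℤ) (g h : G),
      a (g * h) (pw T j x) = a g (pw T j x) + a h (pw T (a g (pw T j x)) (pw T j x)) ∧
      f (g * h) (pw T j x) = f g (pw T j x) * f h (pw T (a g (pw T j x)) (pw T j x)) := by
    refine ae_pw hT (p := fun x => ∀ g h : G, a (g * h) x = a g x + a h (pw T (a g x) x) ∧
      f (g * h) x = f g x * f h (pw T (a g x) x)) ?_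
    rw [ae_all_iff]
    intro g
    rw [ae_all_iff]
    intro k
    exact h.coc g k
  have h2 : ∀ᵐ x ∂μ, ∀ j : ℤ, a 1 (pw T j x) = 0 ∧ f 1 (pw T j x) = 1 :=
    ae_pw hT (p := fun x => a 1 x = 0 ∧ f 1 x = 1) h.one
  have h3 : ∀ᵐ x ∂μ, ∀ (j : ℤ) (g : G),
      {i : ℤ | ¬ (0 ≤ i ↔ 0 ≤ i + a g (pw T i (pw T j x)))}.Finite := by
    refine ae_pw hT (p := fun x => ∀ g : G,
      {i : ℤ | ¬ (0 ≤ i ↔ 0 ≤ i + a g (pw T i x))}.Finite) ?_
    rw [ae_all_iff]
    exact h.cross
  filter_upwards [h1, h2, h3] with x e1 e2 e3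
  exact ⟨e1, e2, e3⟩

lemma GoodPt.pos_mul {x : X} (h : GoodPt T a f x) (g k : G) (j : ℤ) :
    pos T a (g * k) x j = pos T a k x (pos T a g x j) := by
  unfold pos
  rw [(h.coc j g k).1, ← pw_add, ← add_assoc, add_comm (a g (pw T j x)) j]

lemma GoodPt.pos_one {x : X} (h : GoodPt T a f x) (j : ℤ) : pos T a 1 x j = j := by
  unfold pos
  rw [(h.one j).1, add_zero]

/-- the permutation of the orbit -/
def GoodPt.perm {x : X} (h : GoodPt T a f x) (g : G) : Equiv.Perm ℤ where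
  toFun := pos T a g x
  invFun := pos T a g⁻¹ x
  left_inv j := by rw [← h.pos_mul, mul_inv_cancel, h.pos_one]
  right_inv j := by rw [← h.pos_mul, inv_mul_cancel, h.pos_one]

lemma GoodPt.perm_apply {x : X} (h : GoodPt T a f x) (g : G) (j : ℤ) :
    h.perm g j = pos T a g x j := rfl

omit [Group G] in
/-- crossings of the cut `m` at `x` are the crossings of the cut `0` at `T^m x` -/
lemma cross_shift (g : G) (x : X) (m : ℤ) :
    {j | ¬ (m ≤ j ↔ m ≤ pos T a g x j)} =
      (fun i => i + m) '' {i | ¬ (0 ≤ i ↔ 0 ≤ i + a g (pw T i (pw T m x)))} := by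
  ext j
  simp only [mem_image, mem_ofPred_eq]
  constructor
  · intro hj
    refine ⟨j - m, ?_, by ring⟩
    rw [← pw_add, sub_add_cancel]
    intro hc
    apply hj
    unfold pos
    constructor <;> intro h1 <;> omega
  · rintro ⟨i, hi, rfl⟩
    rw [← pw_add] at hi
    intro hc
    apply hi
    unfold pos at hc
    constructor <;> intro h1 <;> omega

lemma GoodPt.cross_finite {x : X} (h : GoodPt T a f x) (g : G) (m : ℤ) :
    {j | Cross h.perm g m j}.Finite := by
  have : {j | Cross h.perm g m j} = {j | ¬ (m ≤ j ↔ m ≤ pos T a g x j)} := rfl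
  rw [this, cross_shift]
  exact (h.cross m g).image _

/-- the points with at most `K` crossings of the cut `0` by each element of `S` -/
def fewCross (T : X ≃ᵐ X) (a : G → X → ℤ) (S : Finset G) (K : ℕ) : Set X :=
  {x | ∀ s ∈ S, ∀ F : Finset ℤ, (∀ i ∈ F, ¬ (0 ≤ i ↔ 0 ≤ i + a s (pw T i x))) → F.card ≤ K}

lemma measurable_fewCross (h : Sys μ T a f) (S : Finset G) (K : ℕ) :
    MeasurableSet (fewCross T a S K) := by
  have : fewCross T a S K = ⋂ s ∈ S, ⋂ F : Finset ℤ,
      {x | (∀ i ∈ F, ¬ (0 ≤ i ↔ 0 ≤ i + a s (pw T i x))) → F.card ≤ K} := by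
    ext x
    simp [fewCross]
  rw [this]
  refine Finset.measurableSet_biInter _ fun s _ => MeasurableSet.iInter fun F => ?_
  have h1 : {x | (∀ i ∈ F, ¬ (0 ≤ i ↔ 0 ≤ i + a s (pw T i x))) → F.card ≤ K} =
      (⋂ i ∈ F, {x | ¬ (0 ≤ i ↔ 0 ≤ i + a s (pw T i x))})ᶜ ∪ {_x | F.card ≤ K} := by
    ext x
    simp only [mem_ofPred_eq, mem_union, mem_compl_iff, mem_iInter]
    rw [imp_iff_not_or]
  rw [h1]
  refine MeasurableSet.union (MeasurableSet.compl ?_) (MeasurableSet.const _)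
  refine Finset.measurableSet_biInter _ fun i _ => ?_
  have h2 : {x | ¬ (0 ≤ i ↔ 0 ≤ i + a s (pw T i x))} =
      (fun x => a s (pw T i x)) ⁻¹' {n : ℤ | ¬ (0 ≤ i ↔ 0 ≤ i + n)} := rfl
  rw [h2]
  exact ((h.meas_a s).comp (measurable_pw T i)) (MeasurableSet.of_discrete)

lemma exists_fewCross [Countable G] (h : Sys μ T a f) (hT : MeasurePreserving T μ μ)
    [IsProbabilityMeasure μ] (S : Finset G) : ∃ K, μ (fewCross T a S K) ≠ 0 := by
  by_contra hc
  push Not at hc
  have h1 : μ (⋃ K, fewCross T a S K) = 0 := measure_iUnion_null hc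
  have h2 : ∀ᵐ x ∂μ, x ∈ ⋃ K, fewCross T a S K := by
    filter_upwards [h.ae_good hT] with x hx
    rw [mem_iUnion]
    have h3 : ∀ s : G, {i : ℤ | ¬ (0 ≤ i ↔ 0 ≤ i + a s (pw T i x))}.Finite := by
      intro s
      have := hx.cross 0 s
      rwa [pw_zero] at this
    refine ⟨∑ s ∈ S, (h3 s).toFinset.card, fun s hs F hF => ?_⟩
    have h4 : F ⊆ (h3 s).toFinset := by
      intro i hi
      rw [Finite.mem_toFinset]
      exact hF i hi
    exact (Finset.card_le_card h4).trans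
      (Finset.single_le_sum (f := fun s => (h3 s).toFinset.card) (fun _ _ => Nat.zero_le _) hs)
  have h3 : μ (⋃ K, fewCross T a S K)ᶜ = 0 := h2
  have h4 : μ univ ≤ μ (⋃ K, fewCross T a S K) + μ (⋃ K, fewCross T a S K)ᶜ := by
    rw [← union_compl_self (⋃ K, fewCross T a S K)]
    exact measure_union_le _ _
  rw [h1, h3, measure_univ] at h4
  simp at h4

lemma GoodPt.ncard_le {x : X} (h : GoodPt T a f x) {S : Finset G} {K : ℕ} {m : ℤ}
    (hm : pw T m x ∈ fewCross T a S K) {s : G} (hs : s ∈ S) :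
    {j | Cross h.perm s m j}.ncard ≤ K := by
  have : {j | Cross h.perm s m j} = {j | ¬ (m ≤ j ↔ m ≤ pos T a s x j)} := rfl
  rw [this, cross_shift, ncard_image_of_injective _ (add_left_injective m)]
  rw [ncard_eq_toFinset_card _ (h.cross m s)]
  refine hm s hs _ fun i hi => ?_
  rw [Finite.mem_toFinset] at hi
  exact hi

/-! ### Sets preserved by some elements -/

/-- the points at which the elements of `F` preserve the set `E` of positions -/
def pres (T : X ≃ᵐ X) (a : G → X → ℤ) (F : Finset G) (E : Set ℤ) : Set X :=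
  {y | ∀ h ∈ F, ∀ j : ℤ, (j ∈ E ↔ pos T a h y j ∈ E)}

lemma measurable_pres (h : Sys μ T a f) (F : Finset G) (E : Set ℤ) :
    MeasurableSet (pres T a F E) := by
  have : pres T a F E = ⋂ s ∈ F, ⋂ j : ℤ, {y | (j ∈ E ↔ pos T a s y j ∈ E)} := by
    ext x
    simp [pres]
  rw [this]
  refine Finset.measurableSet_biInter _ fun s _ => MeasurableSet.iInter fun j => ?_
  have h2 : {y | (j ∈ E ↔ pos T a s y j ∈ E)} =
      (fun y => a s (pw T j y)) ⁻¹' {n : ℤ | (j ∈ E ↔ j + n ∈ E)} := rfl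
  rw [h2]
  exact ((h.meas_a s).comp (measurable_pw T j)) (MeasurableSet.of_discrete)

/-- the subgroup generated by `F` preserves the translates of `E` by the good times -/
lemma GoodPt.closure_pres {y : X} (hy : GoodPt T a f y) {F : Finset G} {E : Set ℤ} {m : ℤ}
    (hm : pw T m y ∈ pres T a F E) {h : G} (hh : h ∈ Subgroup.closure (F : Set G)) :
    ∀ i : ℤ, (i - m ∈ E ↔ pos T a h y i - m ∈ E) := by
  induction hh using Subgroup.closure_induction with
  | mem s hs =>
    intro i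
    have h1 := hm s hs (i - m)
    have h2 : pos T a s (pw T m y) (i - m) = pos T a s y i - m := by
      unfold pos
      rw [← pw_add, sub_add_cancel]
      ring
    rw [h2] at h1
    exact h1
  | one => intro i; rw [hy.pos_one]
  | mul g k _ _ ihg ihk =>
    intro i
    rw [hy.pos_mul, ihg i]
    exact ihk _
  | inv g _ ih =>
    intro i
    have h1 := ih (pos T a g⁻¹ y i)
    rw [← hy.pos_mul, inv_mul_cancel, hy.pos_one] at h1
    exact h1.symm

end

end Pool.Agent.JM
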