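import Pool.Agent.JM.Dyn

/-!
# Integrable displacement implies finite crossing
-/

namespace Pool.Agent.JM

open MeasureTheory Filter Set

universe u

variable {X : Type u} [MeasurableSpace X]

/-- almost every point of `X` is crossed by finitely many steps of its orbit -/
def FinCross (μ : Measure X) (T : X ≃ᵐ X) (b : X → ℤ) : Prop :=
  ∀ᵐ x ∂μ, {j : ℤ | ¬ (0 ≤ j ↔ 0 ≤ j + b (pw T j x))}.Finite

lemma count_cross (n : ℤ) : {j : ℤ | ¬ (0 ≤ j ↔ 0 ≤ j + n)} = Ico (min 0 (-n)) (max 0 (-n)) := by
  ext j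
  simp only [mem_ofPred_eq, mem_Ico]
  constructor
  · intro h
    by_cases h1 : 0 ≤ j
    · have h2 : ¬ 0 ≤ j + n := fun h3 => h ⟨fun _ => h3, fun _ => h1⟩
      constructor
      · exact le_trans (min_le_left _ _) h1
      · exact lt_of_lt_of_le (by omega) (le_max_right _ _)
    · have h2 : 0 ≤ j + n := by
        by_contra h3
        exact h ⟨fun h4 => absurd h4 h1, fun h4 => absurd h4 h3⟩
      constructor
      · exact le_trans (min_le_right _ _) (by omega)
      · exact lt_of_lt_of_le (by omega) (le_max_left _ _)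
  · rintro ⟨h1, h2⟩ h3
    rcases le_total 0 (-n) with h4 | h4
    · rw [min_eq_left h4] at h1
      rw [max_eq_right h4] at h2
      have := h3.1 h1
      omega
    · rw [min_eq_right h4] at h1
      rw [max_eq_left h4] at h2
      have := h3.2 (by omega)
      omega

theorem finCross_of_integrable {μ : Measure X} {T : X ≃ᵐ X} (hT : MeasurePreserving T μ μ)
    {b : X → ℤ} (hb : Measurable b) (hint : Integrable (fun x => (b x : ℝ)) μ) :
    FinCross μ T b := by
  classical
  let C : ℤ → Set X := fun j => {x | ¬ (0 ≤ j ↔ 0 ≤ j + b x)}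
  have hC : ∀ j, MeasurableSet (C j) := by
    intro j
    have : C j = b ⁻¹' {n | ¬ (0 ≤ j ↔ 0 ≤ j + n)} := rfl
    rw [this]
    exact hb MeasurableSet.of_discrete
  -- the total number of crossings
  have h1 : ∫⁻ x, ∑' j : ℤ, (C j).indicator (fun _ => (1 : ENNReal)) (pw T j x) ∂μ =
      ∫⁻ x, ∑' j : ℤ, (C j).indicator (fun _ => (1 : ENNReal)) x ∂μ := by
    rw [lintegral_tsum, lintegral_tsum]
    · refine tsum_congr fun j => ?_
      exact (mp_pw hT j).lintegral_comp (measurable_const.indicator (hC j))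
    · exact fun j => (measurable_const.indicator (hC j)).aemeasurable
    · exact fun j => ((measurable_const.indicator (hC j)).comp (measurable_pw T j)).aemeasurable
  have h2 : ∀ x, ∑' j : ℤ, (C j).indicator (fun _ => (1 : ENNReal)) x = ‖(b x : ℝ)‖ₑ := by
    intro x
    have e1 : ∀ j : ℤ, (C j).indicator (fun _ => (1 : ENNReal)) x =
        ({j : ℤ | ¬ (0 ≤ j ↔ 0 ≤ j + b x)}).indicator (fun _ => (1 : ENNReal)) j := by
      intro j
      by_cases h : x ∈ C j
      · rw [indicator_of_mem h, indicator_of_mem (show j ∈ {j : ℤ | ¬ (0 ≤ j ↔ 0 ≤ j + b x)}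
          from h)]
      · rw [indicator_of_notMem h, indicator_of_notMem
          (show j ∉ {j : ℤ | ¬ (0 ≤ j ↔ 0 ≤ j + b x)} from h)]
    simp only [e1]
    rw [count_cross, ← Finset.coe_Ico, tsum_eq_sum (s := Finset.Ico (min 0 (-b x)) (max 0 (-b x)))
      (fun j hj => indicator_of_notMem (fun h => hj (Finset.mem_coe.1 h)) _)]
    rw [Finset.sum_congr rfl (fun j hj => indicator_of_mem (Finset.mem_coe.2 hj) _),
      Finset.sum_const, Int.card_Ico, nsmul_eq_mul, mul_one]
    have e2 : (max 0 (-b x) - min 0 (-b x)).toNat = (b x).natAbs := by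
      rcases le_total 0 (-b x) with h | h
      · rw [max_eq_right h, min_eq_left h]; omega
      · rw [max_eq_left h, min_eq_right h]; omega
    rw [e2, Real.enorm_eq_ofReal_abs, ← Int.cast_abs, Int.abs_eq_natAbs, Int.cast_natCast,
      ENNReal.ofReal_natCast]
  have h3 : ∫⁻ x, ∑' j : ℤ, (C j).indicator (fun _ => (1 : ENNReal)) (pw T j x) ∂μ ≠ ⊤ := by
    rw [h1]
    simp only [h2]
    exact hint.2.ne
  have h4 : ∀ᵐ x ∂μ, ∑' j : ℤ, (C j).indicator (fun _ => (1 : ENNReal)) (pw T j x) < ⊤ := by
    refine ae_lt_top (Measurable.tsum fun j =>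
      (measurable_const.indicator (hC j)).comp (measurable_pw T j)) h3
  filter_upwards [h4] with x hx
  have h5 := ENNReal.finite_const_le_of_tsum_ne_top hx.ne (one_ne_zero)
  refine h5.subset fun j hj => ?_
  show 1 ≤ (C j).indicator (fun _ => (1 : ENNReal)) (pw T j x)
  rw [indicator_of_mem (show pw T j x ∈ C j from hj)]

end Pool.Agent.JM
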