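import Pool.Agent.JM.Prod

/-!
# Functions of small energy from cuts with few crossings
-/

namespace Pool.Agent.JM

open Real

section

variable {σ : Type*}

/-- the step of `s` starting at `j` crosses the cut `m` -/
def Cross (α : σ → Equiv.Perm ℤ) (s : σ) (m j : ℤ) : Prop := ¬ (m ≤ j ↔ m ≤ α s j)

lemma exists_cuts (α : σ → Equiv.Perm ℤ) (S : Finset σ) (K : ℕ)
    (hfin : ∀ s ∈ S, ∀ m : ℤ, {j | Cross α s m j}.Finite)
    (hgood : ∀ N : ℤ, ∃ m, N ≤ m ∧ ∀ s ∈ S, {j | Cross α s m j}.ncard ≤ K) (M : ℕ) :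
    ∃ P : Finset ℤ, P.card = M ∧ (∀ m ∈ P, ∀ s ∈ S, {j | Cross α s m j}.ncard ≤ K) ∧
      ∀ s ∈ S, ∀ j, ∀ m ∈ P, ∀ m' ∈ P, Cross α s m j → Cross α s m' j → m = m' := by
  classical
  induction M with
  | zero => exact ⟨∅, rfl, by simp, by simp⟩
  | succ M ih =>
    obtain ⟨P, h1, h2, h3⟩ := ih
    -- the starting points of the crossing steps
    let W : Finset ℤ := S.attach.biUnion fun s => P.biUnion fun m => (hfin s.1 s.2 m).toFinset
    have hW : ∀ s ∈ S, ∀ m ∈ P, ∀ j, Cross α s m j → j ∈ W := by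
      intro s hs m hm j hj
      refine Finset.mem_biUnion.2 ⟨⟨s, hs⟩, Finset.mem_attach _ _, Finset.mem_biUnion.2
        ⟨m, hm, ?_⟩⟩
      rw [Set.Finite.mem_toFinset]
      exact hj
    let W' : Finset ℤ := (P ∪ W) ∪ S.biUnion fun s => W.image fun j => α s j
    obtain ⟨b, hb⟩ : ∃ b : ℤ, ∀ x ∈ W', x < b := by
      obtain ⟨b, hb⟩ := W'.bddAbove
      exact ⟨b + 1, fun x hx => Int.lt_add_one_of_le (hb hx)⟩
    obtain ⟨m₁, hm₁, hm₁'⟩ := hgood b
    have hnot : ∀ s ∈ S, ∀ m ∈ P, ∀ j, Cross α s m j → ¬ Cross α s m₁ j := by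
      intro s hs m hm j hj hc
      have hjW := hW s hs m hm j hj
      have e1 : j < b := hb j (Finset.mem_union_left _ (Finset.mem_union_right _ hjW))
      have e2 : α s j < b := hb _ (Finset.mem_union_right _ (Finset.mem_biUnion.2
        ⟨s, hs, Finset.mem_image_of_mem _ hjW⟩))
      apply hc
      constructor <;> intro h <;> omega
    refine ⟨insert m₁ P, ?_, ?_, ?_⟩
    · rw [Finset.card_insert_of_notMem, h1]
      intro hm
      have := hb m₁ (Finset.mem_union_left _ (Finset.mem_union_left _ hm))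
      omega
    · intro m hm
      rcases Finset.mem_insert.1 hm with rfl | hm
      · exact hm₁'
      · exact h2 m hm
    · intro s hs j m hm m' hm' hc hc'
      rcases Finset.mem_insert.1 hm with h5 | h5
      · rcases Finset.mem_insert.1 hm' with h6 | h6
        · rw [h5, h6]
        · rw [h5] at hc
          exact absurd hc (hnot s hs m' h6 j hc')
      · rcases Finset.mem_insert.1 hm' with h6 | h6
        · rw [h6] at hc'
          exact absurd hc' (hnot s hs m h5 j hc)
        · exact h3 s hs j m h5 m' h6 hc hc'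

/-- the number of cuts below `j` -/
def below (P : Finset ℤ) (j : ℤ) : ℕ := (P.filter fun m => m ≤ j).card

lemma below_diff (α : σ → Equiv.Perm ℤ) (P : Finset ℤ) (s : σ) (j : ℤ)
    [DecidablePred fun m => Cross α s m j] :
    |(below P (α s j) : ℝ) - below P j| ≤ (P.filter fun m => Cross α s m j).card := by
  classical
  have h1 : ∀ i, (below P i : ℝ) = ∑ m ∈ P, (if m ≤ i then 1 else 0) := by
    intro i
    unfold below
    rw [Finset.card_filter]
    push_cast
    rfl
  have h2 : ((P.filter fun m => Cross α s m j).card : ℝ) =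
      ∑ m ∈ P, (if Cross α s m j then 1 else 0) := by
    rw [Finset.card_filter]
    push_cast
    rfl
  rw [h1, h1, h2, ← Finset.sum_sub_distrib]
  refine (Finset.abs_sum_le_sum_abs _ _).trans (Finset.sum_le_sum fun m _ => ?_)
  unfold Cross
  by_cases h3 : m ≤ j <;> by_cases h4 : m ≤ α s j <;> simp [h3, h4]

/-- angles of small energy -/
lemma exists_angles (α : σ → Equiv.Perm ℤ) (S : Finset σ) (K : ℕ)
    (hfin : ∀ s ∈ S, ∀ m : ℤ, {j | Cross α s m j}.Finite)
    (hgood : ∀ N : ℤ, ∃ m, N ≤ m ∧ ∀ s ∈ S, {j | Cross α s m j}.ncard ≤ K)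
    {η : ℝ} (hη : 0 < η) :
    ∃ (J : Finset ℤ) (θ : ℤ → ℝ), (∀ j, 0 ≤ θ j ∧ θ j ≤ π / 2) ∧
      (∀ j, j ∉ J → 0 ≤ j → θ j = π / 2) ∧ (∀ j, j ∉ J → ¬ 0 ≤ j → θ j = 0) ∧
      ∀ s ∈ S, ∀ L : Finset ℤ, ∑ j ∈ L, (θ (α s j) - θ j) ^ 2 ≤ η := by
  classical
  obtain ⟨M, hM⟩ := exists_nat_gt (π ^ 2 * K / η)
  have hM0 : (0 : ℝ) < M + 1 := by positivity
  obtain ⟨P, hP1, hP2, hP3⟩ := exists_cuts α S K hfin hgood (M + 1)
  have hPcard : (P.card : ℝ) = M + 1 := by rw [hP1]; push_cast; ring
  set θ : ℤ → ℝ := fun j => π / 2 * (below P j / (M + 1)) with hθ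
  obtain ⟨R, hR⟩ : ∃ R : ℤ, ∀ m ∈ P, -R < m ∧ m < R := by
    obtain ⟨b, hb⟩ := P.bddAbove
    obtain ⟨c, hc⟩ := P.bddBelow
    refine ⟨max (b + 1) (1 - c), fun m hm => ?_⟩
    have h1 := hb hm
    have h2 := hc hm
    constructor
    · have := le_max_right (b + 1) (1 - c); linarith
    · have := le_max_left (b + 1) (1 - c); linarith
  refine ⟨Finset.Icc (-R) R, θ, ?_, ?_, ?_, ?_⟩
  · intro j
    have h1 : (below P j : ℝ) ≤ M + 1 := by
      rw [← hPcard]
      exact_mod_cast Finset.card_filter_le _ _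
    have h2 : (below P j : ℝ) / (M + 1) ≤ 1 := (div_le_one hM0).2 h1
    have h3 : 0 ≤ (below P j : ℝ) / (M + 1) := by positivity
    have h4 := pi_pos
    refine ⟨by positivity, ?_⟩
    show π / 2 * (below P j / (M + 1)) ≤ π / 2
    nlinarith
  · intro j hj hj0
    have hjR : R < j := by
      by_contra hc
      exact hj (Finset.mem_Icc.2 ⟨by
        obtain ⟨m, hm⟩ : P.Nonempty := Finset.card_pos.1 (by omega)
        have := hR m hm
        omega, by omega⟩)
    have : below P j = M + 1 := by
      unfold below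
      rw [Finset.filter_true_of_mem, hP1]
      intro m hm
      have := hR m hm
      omega
    show π / 2 * (below P j / (M + 1)) = π / 2
    rw [this]
    push_cast
    field_simp
  · intro j hj hj0
    have hjR : j < -R := by
      by_contra hc
      exact hj (Finset.mem_Icc.2 ⟨by omega, by
        obtain ⟨m, hm⟩ : P.Nonempty := Finset.card_pos.1 (by omega)
        have := hR m hm
        omega⟩)
    have : below P j = 0 := by
      unfold below
      rw [Finset.card_eq_zero, Finset.filter_eq_empty_iff]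
      intro m hm
      have := hR m hm
      omega
    show π / 2 * (below P j / (M + 1)) = 0
    rw [this]
    simp
  · intro s hs L
    have hx1 : ∀ j, (P.filter fun m => Cross α s m j).card ≤ 1 := by
      intro j
      rw [Finset.card_le_one]
      intro m hm m' hm'
      rw [Finset.mem_filter] at hm hm'
      exact hP3 s hs j m hm.1 m' hm'.1 hm.2 hm'.2
    have hx2 : ∑ j ∈ L, ((P.filter fun m => Cross α s m j).card : ℝ) ≤ (M + 1) * K := by
      have e1 : ∑ j ∈ L, ((P.filter fun m => Cross α s m j).card : ℝ) =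
          ∑ m ∈ P, ((L.filter fun j => Cross α s m j).card : ℝ) := by
        have e2 : ∀ j, ((P.filter fun m => Cross α s m j).card : ℝ) =
            ∑ m ∈ P, (if Cross α s m j then (1 : ℝ) else 0) := by
          intro j
          rw [Finset.card_filter]
          push_cast
          rfl
        have e3 : ∀ m, ((L.filter fun j => Cross α s m j).card : ℝ) =
            ∑ j ∈ L, (if Cross α s m j then (1 : ℝ) else 0) := by
          intro m
          rw [Finset.card_filter]
          push_cast
          rfl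
        simp only [e2, e3]
        exact Finset.sum_comm
      rw [e1]
      calc ∑ m ∈ P, ((L.filter fun j => Cross α s m j).card : ℝ)
          ≤ ∑ m ∈ P, (K : ℝ) := by
            refine Finset.sum_le_sum fun m hm => ?_
            have h1 := hP2 m hm s hs
            have h2 : (L.filter fun j => Cross α s m j).card ≤ {j | Cross α s m j}.ncard := by
              rw [← Set.ncard_coe_finset]
              refine Set.ncard_le_ncard ?_ (hfin s hs m)
              intro j hj
              exact (Finset.mem_filter.1 (Finset.mem_coe.1 hj)).2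
            exact_mod_cast h2.trans h1
        _ = (M + 1) * K := by rw [Finset.sum_const, nsmul_eq_mul, hPcard]
    have hterm : ∀ j, (θ (α s j) - θ j) ^ 2 ≤
        (π / 2 / (M + 1)) ^ 2 * (P.filter fun m => Cross α s m j).card := by
      intro j
      have h1 := below_diff α P s j
      have h2 : θ (α s j) - θ j = π / 2 / (M + 1) * (below P (α s j) - below P j) := by
        show π / 2 * (below P (α s j) / (M + 1)) - π / 2 * (below P j / (M + 1)) = _
        ring
      rw [h2, mul_pow]
      refine mul_le_mul_of_nonneg_left ?_ (sq_nonneg _)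
      have h3 : ((P.filter fun m => Cross α s m j).card : ℝ) ≤ 1 := by exact_mod_cast hx1 j
      have h4 : (0 : ℝ) ≤ ((P.filter fun m => Cross α s m j).card : ℝ) := by positivity
      rw [← sq_abs]
      nlinarith [abs_nonneg ((below P (α s j) : ℝ) - below P j)]
    calc ∑ j ∈ L, (θ (α s j) - θ j) ^ 2
        ≤ ∑ j ∈ L, (π / 2 / (M + 1)) ^ 2 * (P.filter fun m => Cross α s m j).card :=
          Finset.sum_le_sum fun j _ => hterm j
      _ = (π / 2 / (M + 1)) ^ 2 * ∑ j ∈ L, ((P.filter fun m => Cross α s m j).card : ℝ) := by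
          rw [Finset.mul_sum]
      _ ≤ (π / 2 / (M + 1)) ^ 2 * ((M + 1) * K) :=
          mul_le_mul_of_nonneg_left hx2 (sq_nonneg _)
      _ = π ^ 2 * K / (4 * (M + 1)) := by field_simp; ring
      _ ≤ η := by
          rw [div_lt_iff₀ hη] at hM
          rw [div_le_iff₀ (by positivity)]
          nlinarith [pi_pos]

end

end Pool.Agent.JM
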