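import Pool.Agent.JM.Amen
import Pool.Agent.JM.Cross

/-!
# The group measure space factor and normalising unitaries
-/

namespace Pool.Agent.JM

open MeasureTheory Filter Set

universe u

variable {X : Type u} [MeasurableSpace X]

/-- The measure on `X × ℤ`. The point `(x, n)` stands for the pair `(x, T^n x)` of points of one
orbit. -/
noncomputable def nu (μ : Measure X) : Measure (X × ℤ) := μ.prod Measure.count

/-- The Hilbert space `L²(X × ℤ)`. -/
abbrev HS (μ : Measure X) : Type u := Lp ℂ 2 (nu μ)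

/-- `η` is the product of `ξ` and of the function `φ` of the first coordinate. -/
def MulRel (μ : Measure X) (φ : X → ℂ) (ξ η : HS μ) : Prop :=
  ∀ᵐ p ∂(nu μ), η p = φ p.1 * ξ p

/-- `η` is the image of `ξ` under the unitary of the crossed product given by `T ^ (-n)`. -/
def ShiftRel (μ : Measure X) (T : X ≃ᵐ X) (n : ℤ) (ξ η : HS μ) : Prop :=
  ∀ᵐ p ∂(nu μ), η p = ξ (pw T n p.1, p.2 - n)

/-- The bounded operator `w` commutes with the multiplication operators and with the shifts. -/
def InCommutant (μ : Measure X) (T : X ≃ᵐ X) (w : HS μ → HS μ) : Prop :=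
  IsBoundedLinearMap ℂ w ∧
  (∀ φ : X → ℂ, Measurable φ → (∃ C : ℝ, ∀ x, ‖φ x‖ ≤ C) →
    ∀ ξ η, MulRel μ φ ξ η → MulRel μ φ (w ξ) (w η)) ∧
  ∀ (n : ℤ) (ξ η), ShiftRel μ T n ξ η → ShiftRel μ T n (w ξ) (w η)

/-- The operator `u` lies in the group measure space von Neumann algebra `L^∞(X) ⋊ ℤ`, the double
commutant of the multiplication operators and the shifts. -/
def InFactor (μ : Measure X) (T : X ≃ᵐ X) (u : HS μ → HS μ) : Prop :=
  ∀ w : HS μ → HS μ, InCommutant μ T w → ∀ ξ, u (w ξ) = w (u ξ)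

/-- The trace vector: the indicator function of `X × {0}`. -/
noncomputable def vac (μ : Measure X) [IsProbabilityMeasure μ] : HS μ :=
  indicatorConstLp 2 (s := (univ : Set X) ×ˢ ({0} : Set ℤ))
    (MeasurableSet.univ.prod (measurableSet_singleton 0)) (by
      unfold nu
      rw [Measure.prod_prod, measure_univ, Measure.count_singleton]; simp) (1 : ℂ)

/-- The 2-norm of `u - 1`. -/
noncomputable def twoDist (μ : Measure X) [IsProbabilityMeasure μ] (u : HS μ → HS μ) : ℝ :=
  ‖u (vac μ) - vac μ‖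

/-- `u = f σ` with `f : X → 𝕋` and `σ⁻¹ x = T ^ (b x) x` in the full group of `T`. -/
structure NormalForm (μ : Measure X) (T : X ≃ᵐ X) (u : HS μ → HS μ) (b : X → ℤ)
    (f : X → ℂ) : Prop where
  meas_b : Measurable b
  meas_f : Measurable f
  norm_f : ∀ᵐ x ∂μ, ‖f x‖ = 1
  mp : MeasurePreserving (fun x => pw T (b x) x) μ μ
  eq : ∀ ξ : HS μ, ∀ᵐ p ∂(nu μ), u ξ p = f p.1 * ξ (pw T (b p.1) p.1, p.2 - b p.1)

end Pool.Agent.JM
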