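import Pool.Agent.JM.Oper

/-!
# The theorem
-/

namespace Pool.Agent.JM

open MeasureTheory Filter Set

universe u

theorem amenable_of_discrete {X : Type u} [MeasurableSpace X] (μ : Measure X)
    [IsProbabilityMeasure μ] (T : X ≃ᵐ X) (hT : Ergodic T μ)
    (Γ : Subgroup (Equiv.Perm (HS μ)))
    (hΓ : ∀ u ∈ Γ, ∃ (b : X → ℤ) (f : X → ℂ), NormalForm μ T u b f ∧
      FinCross μ T b)
    (hdisc : ∃ ε : ℝ, 0 < ε ∧ ∀ u ∈ Γ, u ≠ 1 → ε ≤ twoDist μ u) :
    Amenable Γ := by
  classical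
  obtain ⟨ε₁, hε₁, hdisc⟩ := hdisc
  choose! b f hNF hFC using hΓ
  refine amenable_of_ainv fun S ε hε => ?_
  set G := Subgroup.closure (S : Set Γ) with hG
  have hcount : Countable G := countable_closure S
  let a : G → X → ℤ := fun g => b ((g : Γ) : Equiv.Perm (HS μ))
  let F : G → X → ℂ := fun g => f ((g : Γ) : Equiv.Perm (HS μ))
  have hnf : ∀ g : G, NormalForm μ T ((g : Γ) : Equiv.Perm (HS μ)) (a g) (F g) := fun g => hNF _ (g : Γ).2
  have hsys : Sys μ T a F := by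
    refine ⟨fun g => (hnf g).meas_b, fun g => (hnf g).meas_f, fun g => (hnf g).norm_f,
      fun g h => ?_, ?_, fun g => hFC _ (g : Γ).2⟩
    · exact (hnf (g * h)).unique ((hnf g).mul (hnf h))
    · exact (hnf 1).unique NormalForm.one
  have hgap : ∀ g : G, g ≠ 1 → (∫ x in {x | a g x = 0}, F g x ∂μ).re ≤ 1 - ε₁ ^ 2 / 2 := by
    intro g hg
    refine (hnf g).gap hε₁.le ?_
    refine hdisc _ (g : Γ).2 fun h1 => hg ?_
    exact Subtype.ext (Subtype.ext h1)
  let S' : Finset G := S.preimage (fun g : G => (g : Γ)) (Subtype.val_injective.injOn)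
  have h1 := ainv_of_sys hsys hT (ε₀ := ε₁ ^ 2 / 2) (by positivity) hgap S' hε
  have h2 := h1.of_hom G.subtype
  have h3 : G.subtype '' (S' : Set G) = (S : Set Γ) := by
    ext s
    constructor
    · rintro ⟨t, ht, rfl⟩
      exact Finset.mem_preimage.1 (Finset.mem_coe.1 ht)
    · intro hs
      exact ⟨⟨s, Subgroup.subset_closure hs⟩, Finset.mem_coe.2 (Finset.mem_preimage.2 hs), rfl⟩
  rwa [h3] at h2

end Pool.Agent.JM
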