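import Pool.Agent.JM.Stab2

/-!
# Amenability of the countable group
-/

namespace Pool.Agent.JM

open MeasureTheory Filter Set

universe u v

variable {X : Type u} [MeasurableSpace X]

variable {μ : Measure X} {T : X ≃ᵐ X} {G : Type v} [Group G] {a : G → X → ℤ} {f : G → X → ℂ}

/-- the positions `≥ 0`, modified on the finite set `D` -/
def base (D : Finset ℤ) : Set ℤ := {j | ¬ (0 ≤ j ↔ j ∈ D)}

lemma exists_base {E : Set ℤ} (hE : {j : ℤ | ¬ (j ∈ E ↔ 0 ≤ j)}.Finite) : ∃ D, base D = E := by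
  refine ⟨hE.toFinset, ?_⟩
  ext j
  show ¬ (0 ≤ j ↔ j ∈ hE.toFinset) ↔ j ∈ E
  rw [Finite.mem_toFinset]
  show ¬ (0 ≤ j ↔ ¬ (j ∈ E ↔ 0 ≤ j)) ↔ j ∈ E
  tauto

theorem ainv_of_sys [Countable G] [IsProbabilityMeasure μ] (h : Sys μ T a f) (hT : Ergodic T μ)
    {ε₀ : ℝ} (hε₀ : 0 < ε₀)
    (hgap : ∀ g : G, g ≠ 1 → (∫ x in {x | a g x = 0}, f g x ∂μ).re ≤ 1 - ε₀)
    (S : Finset G) {ε : ℝ} (hε : 0 < ε) : AInv (S : Set G) ε := by
  classical
  obtain ⟨K, hK⟩ := exists_fewCross h hT.toMeasurePreserving S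
  have hgen : ∀ᵐ x ∂μ, ∀ (F : Finset G) (D : Finset ℤ), x ∈ pres T a F (base D) →
      μ (pres T a F (base D)) ≠ 0 := by
    rw [ae_all_iff]
    intro F
    rw [ae_all_iff]
    intro D
    by_cases h0 : μ (pres T a F (base D)) = 0
    · have h1 : ∀ᵐ x ∂μ, x ∉ pres T a F (base D) := measure_eq_zero_iff_ae_notMem.1 h0
      filter_upwards [h1] with x hx hx'
      exact absurd hx' hx
    · exact Eventually.of_forall fun x _ => h0
  obtain ⟨x, hx, hrec, hpres⟩ := ((h.ae_good hT.toMeasurePreserving).and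
    ((recurrence hT (measurable_fewCross h S K) hK).and hgen)).exists
  have hgood : ∀ N : ℤ, ∃ m, N ≤ m ∧ ∀ s ∈ S, {j | Cross hx.perm s m j}.ncard ≤ K := by
    intro N
    obtain ⟨m, hm, hmK⟩ := (hrec N).1
    exact ⟨m, hm, fun s hs => hx.ncard_le hmK hs⟩
  obtain ⟨J, θ, hθ0, hθ1, hθ2, hθ3⟩ := exists_angles hx.perm S K
    (fun s _ m => hx.cross_finite s m) hgood (η := (ε / 4) ^ 2) (by positivity)
  -- the action on the subsets of the orbit
  let act : G → Set ℤ → Set ℤ := fun g E => (hx.perm g) ⁻¹' E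
  have hact1 : ∀ E, act 1 E = E := by
    intro E
    ext j
    show pos T a 1 x j ∈ E ↔ j ∈ E
    rw [hx.pos_one]
  have hactmul : ∀ g k E, act (g * k) E = act g (act k E) := by
    intro g k E
    ext j
    show pos T a (g * k) x j ∈ E ↔ pos T a k x (pos T a g x j) ∈ E
    rw [hx.pos_mul]
  let C : Set ℤ → Prop := fun E => {j : ℤ | ¬ (j ∈ E ↔ 0 ≤ j)}.Finite
  have hcr : ∀ g, {j : ℤ | ¬ (0 ≤ j ↔ 0 ≤ pos T a g x j)}.Finite := by
    intro g
    exact hx.cross_finite g 0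
  have hC : ∀ g E, C E → C (act g E) := by
    intro g E hE
    have h1 : {j : ℤ | ¬ (j ∈ act g E ↔ 0 ≤ j)} ⊆
        {j : ℤ | ¬ (0 ≤ j ↔ 0 ≤ pos T a g x j)} ∪
          (hx.perm g) ⁻¹' {j : ℤ | ¬ (j ∈ E ↔ 0 ≤ j)} := by
      intro j hj
      by_contra hc
      rw [mem_union, not_or] at hc
      obtain ⟨h2, h3⟩ := hc
      have h2' : (0 ≤ j ↔ 0 ≤ pos T a g x j) := not_not.1 h2
      have h3' : (pos T a g x j ∈ E ↔ 0 ≤ pos T a g x j) := not_not.1 h3
      exact hj (h3'.trans h2'.symm)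
    exact ((hcr g).union (hE.preimage ((hx.perm g).injective.injOn))).subset h1
  -- the almost invariant measure
  let N₀ : Set ℤ := {j | 0 ≤ j}
  have hsum1 : ∑ i : J.powerset, amp J θ (i : Finset ℤ) ^ 2 = 1 := by
    rw [Finset.sum_coe_sort J.powerset (fun F => amp J θ F ^ 2)]
    exact sum_amp_sq J θ
  have hx' : ∀ i : J.powerset, C (cfg J N₀ (i : Finset ℤ)) := by
    intro i
    refine (Finset.finite_toSet J).subset fun j hj => ?_
    by_contra hc
    have hc' : j ∉ J := hc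
    have h1 : j ∉ (i : Finset ℤ) := fun h => hc' (Finset.mem_powerset.1 i.2 h)
    apply hj
    show j ∈ cfg J N₀ i ↔ 0 ≤ j
    unfold cfg
    simp only [mem_union, Finset.mem_coe, h1, false_or, Set.mem_sdiff, hc', not_false_eq_true,
      and_true]
    exact Iff.rfl
  have hinv : ∀ s ∈ (S : Set G), ∀ φ : Set ℤ → ℝ, (∀ ω, |φ ω| ≤ 1) →
      |∑ i : J.powerset, amp J θ (i : Finset ℤ) ^ 2 * φ (act s (cfg J N₀ (i : Finset ℤ))) -
        ∑ i : J.powerset, amp J θ (i : Finset ℤ) ^ 2 * φ (cfg J N₀ (i : Finset ℤ))| ≤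
        ε / 2 := by
    intro s hs φ hφ
    rw [Finset.sum_coe_sort J.powerset (fun F => amp J θ F ^ 2 * φ (act s (cfg J N₀ F))),
      Finset.sum_coe_sort J.powerset (fun F => amp J θ F ^ 2 * φ (cfg J N₀ F))]
    have h1 := LL_almost (hx.perm s) J θ N₀ ((ε / 4) ^ 2) hθ0 hθ1 hθ2 ?_ (hθ3 s hs) φ hφ
    · rw [Real.sqrt_sq (by positivity)] at h1
      unfold LL at h1
      calc _ ≤ 2 * (ε / 4) := h1
        _ = ε / 2 := by ring
    · refine (hcr s).subset fun j hj => ?_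
      intro hc
      exact hj hc.symm
  have hst : ∀ ω, C ω → ∀ F : Set G, F.Finite → (∀ h ∈ F, act h ω = ω) → AInv F (ε / 2) := by
    intro ω hω F hF hFω
    obtain ⟨D, rfl⟩ := exists_base hω
    have h1 : x ∈ pres T a hF.toFinset (base D) := by
      intro g hg j
      rw [Finite.mem_toFinset] at hg
      have h2 := hFω g hg
      have h3 : j ∈ act g (base D) ↔ j ∈ base D := by rw [h2]
      exact h3.symm
    have h2 := ainv_stab h hT hF.toFinset (base D) hω (hpres _ _ h1) hε₀ hgap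
      (ε := ε / 2) (by positivity)
    rwa [Finite.coe_toFinset] at h2
  have hfinal := ainv_of_action act hact1 hactmul C hC (S : Set G) S.finite_toSet (ε / 2) (ε / 2)
    (by positivity) (fun i : J.powerset => amp J θ (i : Finset ℤ) ^ 2)
    (fun i : J.powerset => cfg J N₀ (i : Finset ℤ)) (fun i => sq_nonneg _) hsum1 hx' hinv hst
  have : ε / 2 + ε / 2 = ε := by ring
  rwa [this] at hfinal

end Pool.Agent.JM
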