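import Pool.Agent.JM.Defs
import Pool.Agent.JM.Main

/-!
# From operators to cocycles
-/

namespace Pool.Agent.JM

open MeasureTheory Filter Set

universe u

variable {X : Type u} [MeasurableSpace X] {μ : Measure X} {T : X ≃ᵐ X}

/-- a property of almost all points of `X × ℤ` -/
lemma ae_forall_of_prod [SFinite μ] {p : X × ℤ → Prop}
    (h : ∀ᵐ q ∂(nu μ), p q) : ∀ᵐ x ∂μ, ∀ n : ℤ, p (x, n) := by
  have h1 := Measure.ae_ae_of_ae_prod h
  filter_upwards [h1] with x hx n
  by_contra hc
  have h2 : (Measure.count : Measure ℤ) {m | ¬ p (x, m)} = 0 := hx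
  rw [Measure.count_eq_zero_iff] at h2
  have : n ∈ {m | ¬ p (x, m)} := hc
  rw [h2] at this
  exact this

/-- the map `(x, n) ↦ (T^(b x) x, n - b x)` preserves the measure -/
lemma mp_theta [SFinite μ] {b : X → ℤ} (hb : Measurable b)
    (hmp : MeasurePreserving (fun x => pw T (b x) x) μ μ) :
    MeasurePreserving (fun p : X × ℤ => (pw T (b p.1) p.1, p.2 - b p.1))
      (nu μ) (nu μ) := by
  refine hmp.skew_product (g := fun x n => n - b x) ?_ ?_
  · exact measurable_snd.sub (hb.comp measurable_fst)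
  · refine Eventually.of_forall fun x => ?_
    ext s hs
    rw [Measure.map_apply (Measurable.of_discrete) hs]
    have : (fun n : ℤ => n - b x) ⁻¹' s = (fun n => n + b x) '' s := by
      ext n
      constructor
      · intro h
        exact ⟨n - b x, h, by ring⟩
      · rintro ⟨m, hm, rfl⟩
        show m + b x - b x ∈ s
        simpa using hm
    rw [this, Measure.count_injective_image (add_left_injective (b x))]

lemma NormalForm.mul [SFinite μ] {u v : HS μ → HS μ} {b c : X → ℤ} {f g : X → ℂ}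
    (hu : NormalForm μ T u b f) (hv : NormalForm μ T v c g) :
    NormalForm μ T (u ∘ v) (fun x => b x + c (pw T (b x) x)) (fun x => f x * g (pw T (b x) x)) := by
  have hσ : Measurable fun x => pw T (b x) x := hu.mp.measurable
  refine ⟨hu.meas_b.add (hv.meas_b.comp hσ), hu.meas_f.mul (hv.meas_f.comp hσ), ?_, ?_, ?_⟩
  · filter_upwards [hu.norm_f, hu.mp.quasiMeasurePreserving.ae hv.norm_f] with x h1 h2
    rw [norm_mul, h1, h2, one_mul]
  · have h1 := hv.mp.comp hu.mp
    have h2 : (fun x => pw T (b x + c (pw T (b x) x)) x) =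
        (fun x => pw T (c x) x) ∘ fun x => pw T (b x) x := by
      funext x
      show _ = pw T (c (pw T (b x) x)) (pw T (b x) x)
      rw [← pw_add, add_comm]
    rw [h2]
    exact h1
  · intro ξ
    have h1 := hu.eq (v ξ)
    have h2 := (mp_theta hu.meas_b hu.mp).quasiMeasurePreserving.ae (hv.eq ξ)
    filter_upwards [h1, h2] with p h3 h4
    show u (v ξ) p = _
    rw [h3, h4, mul_assoc]
    have e1 : pw T (c (pw T (b p.1) p.1)) (pw T (b p.1) p.1) =
        pw T (b p.1 + c (pw T (b p.1) p.1)) p.1 := by rw [← pw_add, add_comm]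
    have e2 : p.2 - b p.1 - c (pw T (b p.1) p.1) = p.2 - (b p.1 + c (pw T (b p.1) p.1)) := by ring
    rw [e1, e2]

lemma NormalForm.one [SFinite μ] : NormalForm μ T id (fun _ => 0) (fun _ => 1) := by
  refine ⟨measurable_const, measurable_const, Eventually.of_forall fun x => by simp, ?_, ?_⟩
  · have : (fun x => pw T 0 x) = id := by funext x; exact pw_zero T x
    rw [this]
    exact MeasurePreserving.id μ
  · intro ξ
    refine Eventually.of_forall fun p => ?_
    simp [pw_zero]

section

variable [IsProbabilityMeasure μ]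

lemma NormalForm.vac_apply {u : HS μ → HS μ} {b : X → ℤ} {f : X → ℂ}
    (hu : NormalForm μ T u b f) : ∀ᵐ p ∂(nu μ),
      u (vac μ) p = f p.1 * (if p.2 = b p.1 then 1 else 0) := by
  have h1 : ∀ᵐ p ∂(nu μ), vac μ p = if p.2 = 0 then 1 else 0 := by
    have h2 := indicatorConstLp_coeFn (p := 2) (hs := (MeasurableSet.univ (α := X)).prod
      (measurableSet_singleton (0 : ℤ))) (hμs := by
        unfold nu
        rw [Measure.prod_prod, measure_univ, Measure.count_singleton]; simp) (c := (1 : ℂ))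
        (μ := nu μ)
    filter_upwards [h2] with p hp
    show (vac μ) p = _
    unfold vac
    rw [hp]
    by_cases h0 : p.2 = 0
    · rw [indicator_of_mem (by simp [h0]), if_pos h0]
    · rw [indicator_of_notMem (by simp [h0]), if_neg h0]
  have h3 := (mp_theta hu.meas_b hu.mp).quasiMeasurePreserving.ae h1
  filter_upwards [hu.eq (vac μ), h3] with p h4 h5
  rw [h4, h5]
  simp only [sub_eq_zero]

lemma NormalForm.unique {u : HS μ → HS μ} {b b' : X → ℤ} {f f' : X → ℂ}
    (hu : NormalForm μ T u b f) (hu' : NormalForm μ T u b' f') :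
    ∀ᵐ x ∂μ, b x = b' x ∧ f x = f' x := by
  have h1 : ∀ᵐ x ∂μ, ∀ n : ℤ, f x * (if n = b x then 1 else 0) =
      f' x * (if n = b' x then 1 else 0) := by
    refine ae_forall_of_prod (p := fun p => f p.1 * (if p.2 = b p.1 then 1 else 0) =
      f' p.1 * (if p.2 = b' p.1 then 1 else 0)) ?_
    filter_upwards [hu.vac_apply, hu'.vac_apply] with p h2 h3
    rw [← h2, ← h3]
  filter_upwards [h1, hu.norm_f] with x hx hfx
  have h2 := hx (b x)
  rw [if_pos rfl, mul_one] at h2
  have hf : f x ≠ 0 := by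
    intro h0
    rw [h0, norm_zero] at hfx
    exact zero_ne_one hfx
  by_cases h3 : b x = b' x
  · rw [if_pos h3, mul_one] at h2
    exact ⟨h3, h2⟩
  · rw [if_neg h3, mul_zero] at h2
    exact absurd h2 hf

lemma norm_vac : ‖vac μ‖ = 1 := by
  unfold vac
  rw [norm_indicatorConstLp (by norm_num) (by norm_num)]
  simp [Measure.real, nu, Measure.prod_prod]

lemma NormalForm.inner_vac {u : HS μ → HS μ} {b : X → ℤ} {f : X → ℂ}
    (hu : NormalForm μ T u b f) :
    inner ℂ (vac μ) (u (vac μ)) = ∫ x in {x | b x = 0}, f x ∂μ := by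
  have hs : MeasurableSet ((univ : Set X) ×ˢ ({0} : Set ℤ)) :=
    MeasurableSet.univ.prod (measurableSet_singleton 0)
  have h1 : inner ℂ (vac μ) (u (vac μ)) = ∫ p in (univ : Set X) ×ˢ ({0} : Set ℤ),
      u (vac μ) p ∂(nu μ) :=
    L2.inner_indicatorConstLp_one hs _ (u (vac μ))
  have h2 : ∫ p in (univ : Set X) ×ˢ ({0} : Set ℤ),
      u (vac μ) p ∂(nu μ) =
      ∫ p in (univ : Set X) ×ˢ ({0} : Set ℤ),
        (f p.1 * (if p.2 = b p.1 then 1 else 0)) ∂(nu μ) :=
    integral_congr_ae (ae_restrict_of_ae hu.vac_apply)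
  have h3 : (nu μ).restrict ((univ : Set X) ×ˢ ({0} : Set ℤ)) =
      μ.map (fun x => (x, (0 : ℤ))) := by
    unfold nu
    rw [← Measure.prod_restrict, Measure.restrict_univ, Measure.restrict_singleton,
      Measure.count_singleton, one_smul, Measure.prod_dirac]
  have hmeas : Measurable fun p : X × ℤ => f p.1 * (if p.2 = b p.1 then (1 : ℂ) else 0) := by
    refine (hu.meas_f.comp measurable_fst).mul (Measurable.ite ?_ measurable_const
      measurable_const)
    exact measurableSet_eq_fun measurable_snd (hu.meas_b.comp measurable_fst)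
  have hb0 : MeasurableSet {x | b x = 0} := measurableSet_eq_fun hu.meas_b measurable_const
  rw [h1, h2, h3, integral_map (by fun_prop) hmeas.aestronglyMeasurable,
    ← integral_indicator hb0]
  refine integral_congr_ae (Eventually.of_forall fun x => ?_)
  by_cases h0 : b x = 0
  · simp [indicator, h0]
  · have h0' : ¬ (0 : ℤ) = b x := fun h => h0 h.symm
    simp [indicator, h0, h0']

omit [IsProbabilityMeasure μ] in
lemma NormalForm.norm_map [SFinite μ] {u : HS μ → HS μ} {b : X → ℤ} {f : X → ℂ}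
    (hu : NormalForm μ T u b f) (ξ : HS μ) : ‖u ξ‖ = ‖ξ‖ := by
  have hf : ∀ᵐ p ∂(nu μ), ‖f p.1‖ = 1 := by
    unfold nu
    exact Measure.quasiMeasurePreserving_fst.ae hu.norm_f
  have h1 : eLpNorm (u ξ) 2 (nu μ) =
      eLpNorm (ξ ∘ fun p : X × ℤ => (pw T (b p.1) p.1, p.2 - b p.1)) 2 (nu μ) := by
    refine eLpNorm_congr_norm_ae ?_
    filter_upwards [hu.eq ξ, hf] with p h2 h3
    rw [h2, norm_mul, h3, one_mul]
    rfl
  rw [Lp.norm_def, Lp.norm_def, h1,
    eLpNorm_comp_measurePreserving (Lp.aestronglyMeasurable ξ) (mp_theta hu.meas_b hu.mp)]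

lemma NormalForm.gap {u : HS μ → HS μ} {b : X → ℤ} {f : X → ℂ}
    (hu : NormalForm μ T u b f) {ε : ℝ} (hε : 0 ≤ ε) (h : ε ≤ twoDist μ u) :
    (∫ x in {x | b x = 0}, f x ∂μ).re ≤ 1 - ε ^ 2 / 2 := by
  have h1 : ‖u (vac μ) - vac μ‖ ^ 2 = ‖u (vac μ)‖ ^ 2 -
      2 * RCLike.re (inner ℂ (u (vac μ)) (vac μ)) + ‖vac μ‖ ^ 2 := norm_sub_sq _ _
  have h2 : ‖u (vac μ)‖ = 1 := by
    rw [hu.norm_map, norm_vac]
  rw [h2, norm_vac, inner_re_symm, hu.inner_vac] at h1
  have h3 : ε ^ 2 ≤ ‖u (vac μ) - vac μ‖ ^ 2 := pow_le_pow_left₀ hε h 2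
  rw [h1] at h3
  have h4 : RCLike.re (∫ x in {x | b x = 0}, f x ∂μ) = (∫ x in {x | b x = 0}, f x ∂μ).re := rfl
  rw [h4] at h3
  linarith

end

/-- a finitely generated group is countable -/
lemma countable_closure {G : Type*} [Group G] (S : Finset G) :
    Countable (Subgroup.closure (S : Set G)) := by
  have : Set.Countable (Subgroup.closure (S : Set G) : Set G) := by
    have h1 : Countable (FreeGroup S) := by
      unfold FreeGroup
      infer_instance
    have h2 := Set.countable_range (FreeGroup.lift (fun s : S => (s : G)))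
    have h3 : (Subgroup.closure (S : Set G) : Set G) =
        Set.range (FreeGroup.lift (fun s : S => (s : G))) := by
      rw [← MonoidHom.coe_range, FreeGroup.range_lift_eq_closure]
      congr 1
      congr 1
      ext x
      simp
    rw [h3]
    exact h2
  exact this.to_subtype

end Pool.Agent.JM
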