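import Pool.Agent.JM.Reiter

/-!
# Product measures on configurations
-/

namespace Pool.Agent.JM

open Real

section

variable {ι : Type} [DecidableEq ι]

/-- the configuration `F` inside `J`, `B` outside `J` -/
def cfg (J : Finset ι) (B : Set ι) (F : Finset ι) : Set ι := ↑F ∪ (B \ ↑J)

/-- the amplitude of `F ⊆ J` -/
noncomputable def amp (J : Finset ι) (θ : ι → ℝ) (F : Finset ι) : ℝ :=
  (∏ j ∈ F, sin (θ j)) * ∏ j ∈ J \ F, cos (θ j)

/-- the product measure on the configurations which agree with `B` outside `J` -/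
noncomputable def LL (J : Finset ι) (θ : ι → ℝ) (B : Set ι) (φ : Set ι → ℝ) : ℝ :=
  ∑ F ∈ J.powerset, amp J θ F ^ 2 * φ (cfg J B F)

lemma sum_amp (J : Finset ι) (θ θ' : ι → ℝ) :
    ∑ F ∈ J.powerset, amp J θ F * amp J θ' F = ∏ j ∈ J, cos (θ j - θ' j) := by
  have h : ∀ j, cos (θ j - θ' j) = sin (θ j) * sin (θ' j) + cos (θ j) * cos (θ' j) := by
    intro j
    rw [cos_sub]; ring
  simp only [h]
  rw [Finset.prod_add]
  refine Finset.sum_congr rfl fun F _ => ?_
  unfold amp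
  rw [Finset.prod_mul_distrib, Finset.prod_mul_distrib]
  ring

lemma sum_amp_sq (J : Finset ι) (θ : ι → ℝ) : ∑ F ∈ J.powerset, amp J θ F ^ 2 = 1 := by
  have := sum_amp J θ θ
  simp only [sub_self, cos_zero, Finset.prod_const_one] at this
  rw [← this]
  refine Finset.sum_congr rfl fun F _ => by ring

lemma LL_insert (J : Finset ι) (θ : ι → ℝ) (B : Set ι) (φ : Set ι → ℝ) {j : ι} (hj : j ∉ J)
    (h1 : j ∈ B → θ j = π / 2) (h2 : j ∉ B → θ j = 0) :
    LL (insert j J) θ B φ = LL J θ B φ := by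
  unfold LL
  rw [Finset.sum_powerset_insert hj]
  have hF : ∀ F ∈ J.powerset, j ∉ F := fun F hF hjF => hj (Finset.mem_powerset.1 hF hjF)
  have hamp1 : ∀ F ∈ J.powerset, amp (insert j J) θ F = cos (θ j) * amp J θ F := by
    intro F hFJ
    unfold amp
    have : insert j J \ F = insert j (J \ F) := Finset.insert_sdiff_of_notMem _ (hF F hFJ)
    rw [this, Finset.prod_insert (by simp [hj])]
    ring
  have hamp2 : ∀ F ∈ J.powerset, amp (insert j J) θ (insert j F) = sin (θ j) * amp J θ F := by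
    intro F hFJ
    unfold amp
    have : insert j J \ insert j F = J \ F := by
      ext x
      simp only [Finset.mem_sdiff, Finset.mem_insert]
      constructor
      · rintro ⟨h3 | h3, h4⟩
        · exact absurd (Or.inl h3) h4
        · exact ⟨h3, fun h5 => h4 (Or.inr h5)⟩
      · rintro ⟨h3, h4⟩
        refine ⟨Or.inr h3, ?_⟩
        rintro (rfl | h5)
        · exact hj h3
        · exact h4 h5
    rw [this, Finset.prod_insert (hF F hFJ)]
    ring
  have e1 : ∑ F ∈ J.powerset, amp (insert j J) θ F ^ 2 * φ (cfg (insert j J) B F) =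
      ∑ F ∈ J.powerset, (cos (θ j) * amp J θ F) ^ 2 * φ (cfg (insert j J) B F) :=
    Finset.sum_congr rfl fun F hFJ => by rw [hamp1 F hFJ]
  have e2 : ∑ F ∈ J.powerset, amp (insert j J) θ (insert j F) ^ 2 *
        φ (cfg (insert j J) B (insert j F)) =
      ∑ F ∈ J.powerset, (sin (θ j) * amp J θ F) ^ 2 *
        φ (cfg (insert j J) B (insert j F)) :=
    Finset.sum_congr rfl fun F hFJ => by rw [hamp2 F hFJ]
  rw [e1, e2]
  by_cases hB : j ∈ B
  · rw [h1 hB, cos_pi_div_two, sin_pi_div_two]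
    simp only [zero_mul, one_mul, ne_eq, OfNat.ofNat_ne_zero, not_false_eq_true, zero_pow,
      Finset.sum_const_zero, zero_add]
    refine Finset.sum_congr rfl fun F hFJ => ?_
    congr 2
    ext x
    simp only [cfg, Set.mem_union, Set.mem_sdiff, Finset.mem_coe, Finset.mem_insert]
    by_cases hx : x = j
    · subst hx
      simp [hB, hj]
    · simp [hx]
  · rw [h2 hB, cos_zero, sin_zero]
    simp only [zero_mul, one_mul, ne_eq, OfNat.ofNat_ne_zero, not_false_eq_true, zero_pow,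
      Finset.sum_const_zero, add_zero]
    refine Finset.sum_congr rfl fun F hFJ => ?_
    congr 2
    ext x
    simp only [cfg, Set.mem_union, Set.mem_sdiff, Finset.mem_coe, Finset.mem_insert]
    by_cases hx : x = j
    · subst hx
      simp [hB]
    · simp [hx]

lemma LL_union (J D : Finset ι) (θ : ι → ℝ) (B : Set ι) (φ : Set ι → ℝ)
    (h1 : ∀ j, j ∉ J → j ∈ B → θ j = π / 2) (h2 : ∀ j, j ∉ J → j ∉ B → θ j = 0) :
    LL (D ∪ J) θ B φ = LL J θ B φ := by
  induction D using Finset.induction_on with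
  | empty => simp
  | insert a D ha ih =>
    rw [Finset.insert_union]
    by_cases haJ : a ∈ D ∪ J
    · rw [Finset.insert_eq_of_mem haJ, ih]
    · have haJ' : a ∉ J := fun h => haJ (Finset.mem_union_right _ h)
      rw [LL_insert _ _ _ _ haJ (h1 a haJ') (h2 a haJ'), ih]

lemma LL_congr (J : Finset ι) (θ : ι → ℝ) (B B' : Set ι) (φ : Set ι → ℝ)
    (h : ∀ j, j ∉ J → (j ∈ B ↔ j ∈ B')) : LL J θ B φ = LL J θ B' φ := by
  unfold LL
  refine Finset.sum_congr rfl fun F _ => ?_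
  congr 2
  ext x
  simp only [cfg, Set.mem_union, Set.mem_sdiff, Finset.mem_coe]
  constructor
  · rintro (h1 | ⟨h1, h2⟩)
    · exact Or.inl h1
    · exact Or.inr ⟨(h x h2).1 h1, h2⟩
  · rintro (h1 | ⟨h1, h2⟩)
    · exact Or.inl h1
    · exact Or.inr ⟨(h x h2).2 h1, h2⟩

lemma LL_perm (α : Equiv.Perm ι) (J : Finset ι) (θ : ι → ℝ) (B : Set ι) (φ : Set ι → ℝ) :
    LL J θ B (fun E => φ (α ⁻¹' E)) =
      LL (J.map α.symm.toEmbedding) (fun j => θ (α j)) (α ⁻¹' B) φ := by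
  unfold LL
  refine Finset.sum_nbij' (fun F => F.map α.symm.toEmbedding) (fun F => F.map α.toEmbedding)
    ?_ ?_ ?_ ?_ ?_
  · intro F hF
    exact Finset.mem_powerset.2 (Finset.map_subset_map.2 (Finset.mem_powerset.1 hF))
  · intro F hF
    rw [Finset.mem_powerset] at hF ⊢
    intro x hx
    rw [Finset.mem_map] at hx
    obtain ⟨y, hy, rfl⟩ := hx
    have h1 := hF hy
    rw [Finset.mem_map] at h1
    obtain ⟨z, hz, hzy⟩ := h1
    have : α y = z := by rw [← hzy]; simp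
    show α y ∈ J
    rw [this]; exact hz
  · intro F _
    ext x
    simp
  · intro F _
    ext x
    simp
  · intro F hF
    have h1 : amp (J.map α.symm.toEmbedding) (fun j => θ (α j)) (F.map α.symm.toEmbedding) =
        amp J θ F := by
      unfold amp
      rw [← Finset.map_sdiff, Finset.prod_map, Finset.prod_map]
      simp
    have h3 : α ⁻¹' cfg J B F =
        cfg (J.map α.symm.toEmbedding) (α ⁻¹' B) (F.map α.symm.toEmbedding) := by
      ext x
      simp only [cfg, Set.mem_preimage, Set.mem_union, Set.mem_sdiff, Finset.mem_coe,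
        Finset.mem_map, Equiv.toEmbedding_apply]
      have h2 : ∀ G : Finset ι, (∃ a ∈ G, α.symm a = x) ↔ α x ∈ G := by
        intro G
        constructor
        · rintro ⟨a, ha, rfl⟩
          simpa using ha
        · intro h
          exact ⟨α x, h, by simp⟩
      rw [h2, h2]
    rw [h1, ← h3]

lemma LL_compare (J : Finset ι) (θ θ' : ι → ℝ) (B : Set ι) (φ : Set ι → ℝ)
    (hφ : ∀ E, |φ E| ≤ 1) :
    |LL J θ B φ - LL J θ' B φ| ≤ 2 * √(2 * (1 - ∏ j ∈ J, cos (θ j - θ' j))) := by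
  unfold LL
  rw [← Finset.sum_sub_distrib]
  have h1 : |∑ F ∈ J.powerset, (amp J θ F ^ 2 * φ (cfg J B F) - amp J θ' F ^ 2 * φ (cfg J B F))| ≤
      ∑ F ∈ J.powerset, |amp J θ F - amp J θ' F| * |amp J θ F + amp J θ' F| := by
    refine (Finset.abs_sum_le_sum_abs _ _).trans (Finset.sum_le_sum fun F _ => ?_)
    rw [← sub_mul, abs_mul, ← abs_mul (amp J θ F - amp J θ' F)]
    have : (amp J θ F - amp J θ' F) * (amp J θ F + amp J θ' F) =
        amp J θ F ^ 2 - amp J θ' F ^ 2 := by ring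
    rw [this]
    calc |amp J θ F ^ 2 - amp J θ' F ^ 2| * |φ (cfg J B F)|
        ≤ |amp J θ F ^ 2 - amp J θ' F ^ 2| * 1 :=
          mul_le_mul_of_nonneg_left (hφ _) (abs_nonneg _)
      _ = _ := mul_one _
  have h2 := Finset.sum_mul_sq_le_sq_mul_sq J.powerset (fun F => |amp J θ F - amp J θ' F|)
    (fun F => |amp J θ F + amp J θ' F|)
  have h3 : ∑ F ∈ J.powerset, |amp J θ F - amp J θ' F| ^ 2 =
      2 * (1 - ∏ j ∈ J, cos (θ j - θ' j)) := by
    rw [← sum_amp]
    have e : ∀ F, |amp J θ F - amp J θ' F| ^ 2 =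
        amp J θ F ^ 2 + amp J θ' F ^ 2 - 2 * (amp J θ F * amp J θ' F) := by
      intro F; rw [sq_abs]; ring
    simp only [e]
    rw [Finset.sum_sub_distrib, Finset.sum_add_distrib, sum_amp_sq, sum_amp_sq,
      ← Finset.mul_sum]
    ring
  have h4 : ∑ F ∈ J.powerset, |amp J θ F + amp J θ' F| ^ 2 ≤ 4 := by
    have e : ∀ F, |amp J θ F + amp J θ' F| ^ 2 ≤ 2 * amp J θ F ^ 2 + 2 * amp J θ' F ^ 2 := by
      intro F
      rw [sq_abs]
      nlinarith [sq_nonneg (amp J θ F - amp J θ' F)]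
    calc ∑ F ∈ J.powerset, |amp J θ F + amp J θ' F| ^ 2
        ≤ ∑ F ∈ J.powerset, (2 * amp J θ F ^ 2 + 2 * amp J θ' F ^ 2) :=
          Finset.sum_le_sum fun F _ => e F
      _ = 4 := by
          rw [Finset.sum_add_distrib, ← Finset.mul_sum, ← Finset.mul_sum, sum_amp_sq, sum_amp_sq]
          norm_num
  have h5 : (0 : ℝ) ≤ 2 * (1 - ∏ j ∈ J, cos (θ j - θ' j)) := by
    rw [← h3]
    exact Finset.sum_nonneg fun F _ => sq_nonneg _
  set S := ∑ F ∈ J.powerset, |amp J θ F - amp J θ' F| * |amp J θ F + amp J θ' F| with hS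
  have h6 : S ^ 2 ≤ (2 * √(2 * (1 - ∏ j ∈ J, cos (θ j - θ' j)))) ^ 2 := by
    rw [mul_pow, Real.sq_sqrt h5]
    rw [h3] at h2
    nlinarith
  have h7 : 0 ≤ S := Finset.sum_nonneg fun F _ => mul_nonneg (abs_nonneg _) (abs_nonneg _)
  exact h1.trans ((le_abs_self S).trans (abs_le_of_sq_le_sq h6 (by positivity)))

lemma one_sub_sum_le_prod (J : Finset ι) (x : ι → ℝ) (h : ∀ j ∈ J, 0 ≤ x j ∧ x j ≤ 1) :
    1 - ∑ j ∈ J, (1 - x j) ≤ ∏ j ∈ J, x j ∧ 0 ≤ ∏ j ∈ J, x j ∧ ∏ j ∈ J, x j ≤ 1 := by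
  induction J using Finset.induction_on with
  | empty => simp
  | insert a J ha ih =>
    obtain ⟨h1, h2, h3⟩ := ih fun j hj => h j (Finset.mem_insert_of_mem hj)
    obtain ⟨h4, h5⟩ := h a (Finset.mem_insert_self _ _)
    rw [Finset.sum_insert ha, Finset.prod_insert ha]
    refine ⟨?_, mul_nonneg h4 h2, ?_⟩
    · nlinarith
    · nlinarith

/-- the product measure is almost invariant if the angles have small energy -/
lemma LL_almost (α : Equiv.Perm ι) (J : Finset ι) (θ : ι → ℝ) (B : Set ι) (η : ℝ)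
    (h0 : ∀ j, 0 ≤ θ j ∧ θ j ≤ π / 2)
    (h1 : ∀ j, j ∉ J → j ∈ B → θ j = π / 2) (h2 : ∀ j, j ∉ J → j ∉ B → θ j = 0)
    (hD : {j | ¬ (α j ∈ B ↔ j ∈ B)}.Finite)
    (hη : ∀ K : Finset ι, ∑ j ∈ K, (θ (α j) - θ j) ^ 2 ≤ η) (φ : Set ι → ℝ)
    (hφ : ∀ E, |φ E| ≤ 1) :
    |LL J θ B (fun E => φ (α ⁻¹' E)) - LL J θ B φ| ≤ 2 * √η := by
  rw [LL_perm]
  set J1 := J.map α.symm.toEmbedding with hJ1
  set D := hD.toFinset with hDdef
  have hmem : ∀ j, j ∈ J1 ↔ α j ∈ J := by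
    intro j
    rw [hJ1, Finset.mem_map]
    constructor
    · rintro ⟨a, ha, rfl⟩
      simpa using ha
    · intro h
      exact ⟨α j, h, by simp⟩
  have e1 : LL J1 (fun j => θ (α j)) (α ⁻¹' B) φ =
      LL ((D ∪ J) ∪ J1) (fun j => θ (α j)) (α ⁻¹' B) φ := by
    rw [LL_union]
    · intro j hj hB
      exact h1 (α j) (fun h => hj ((hmem j).2 h)) hB
    · intro j hj hB
      exact h2 (α j) (fun h => hj ((hmem j).2 h)) hB
  have e2 : LL ((D ∪ J) ∪ J1) (fun j => θ (α j)) (α ⁻¹' B) φ =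
      LL ((D ∪ J) ∪ J1) (fun j => θ (α j)) B φ := by
    refine LL_congr _ _ _ _ _ fun j hj => ?_
    by_contra hc
    apply hj
    refine Finset.mem_union_left _ (Finset.mem_union_left _ ?_)
    rw [hDdef, Set.Finite.mem_toFinset]
    exact hc
  have e3 : LL J θ B φ = LL ((D ∪ J) ∪ J1) θ B φ := by
    have : (D ∪ J) ∪ J1 = (D ∪ J1) ∪ J := by
      rw [Finset.union_assoc, Finset.union_comm J J1, ← Finset.union_assoc]
    rw [this, LL_union _ _ _ _ _ h1 h2]
  rw [e1, e2, e3]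
  refine (LL_compare _ _ _ _ _ hφ).trans ?_
  have hcos : ∀ j, 0 ≤ cos (θ (α j) - θ j) ∧ cos (θ (α j) - θ j) ≤ 1 := by
    intro j
    refine ⟨cos_nonneg_of_neg_pi_div_two_le_of_le ?_ ?_, cos_le_one _⟩
    · linarith [(h0 (α j)).1, (h0 j).2]
    · linarith [(h0 (α j)).2, (h0 j).1]
  have h3 := (one_sub_sum_le_prod ((D ∪ J) ∪ J1) (fun j => cos (θ (α j) - θ j))
    fun j _ => hcos j).1
  have h4 : ∑ j ∈ (D ∪ J) ∪ J1, (1 - cos (θ (α j) - θ j)) ≤
      ∑ j ∈ (D ∪ J) ∪ J1, (θ (α j) - θ j) ^ 2 / 2 := by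
    refine Finset.sum_le_sum fun j _ => ?_
    have := one_sub_sq_div_two_le_cos (x := θ (α j) - θ j)
    linarith
  have h5 := hη ((D ∪ J) ∪ J1)
  rw [← Finset.sum_div] at h4
  have h6 : 2 * (1 - ∏ j ∈ (D ∪ J) ∪ J1, cos (θ (α j) - θ j)) ≤ η := by linarith
  exact mul_le_mul_of_nonneg_left (Real.sqrt_le_sqrt h6) (by norm_num)

end

end Pool.Agent.JM
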