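import Mathlib

/-!
# Almost invariant finite means

Finitely supported probability measures, regarded as functionals on functions.
-/

namespace Pool.Agent.JM

universe u v

/-- `L` is the integral with respect to a finitely supported probability measure on `Ω`. -/
def FinMean {Ω : Type u} (L : (Ω → ℝ) → ℝ) : Prop :=
  ∃ (ι : Type) (_ : Fintype ι) (p : ι → ℝ) (x : ι → Ω),
    (∀ i, 0 ≤ p i) ∧ ∑ i, p i = 1 ∧ ∀ φ, L φ = ∑ i, p i * φ (x i)

/-- There is a finitely supported probability measure on `G` which is moved by at most `ε` (in the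
`ℓ¹` norm) by the elements of `S`. -/
def AInv {G : Type u} [Group G] (S : Set G) (ε : ℝ) : Prop :=
  ∃ L : (G → ℝ) → ℝ, FinMean L ∧ ∀ s ∈ S, ∀ φ : G → ℝ, (∀ x, |φ x| ≤ 1) →
    |L (fun x => φ (s * x)) - L φ| ≤ ε

lemma FinMean.bound {Ω : Type u} {L : (Ω → ℝ) → ℝ} (hL : FinMean L) {φ ψ : Ω → ℝ} {c : ℝ}
    (h : ∀ x, |φ x - ψ x| ≤ c) : |L φ - L ψ| ≤ c := by
  obtain ⟨ι, _, p, x, hp, hs, hL⟩ := hL
  rw [hL, hL, ← Finset.sum_sub_distrib]
  calc |∑ i, (p i * φ (x i) - p i * ψ (x i))|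
      ≤ ∑ i, |p i * φ (x i) - p i * ψ (x i)| := Finset.abs_sum_le_sum_abs _ _
    _ ≤ ∑ i, p i * c := by
        refine Finset.sum_le_sum fun i _ => ?_
        rw [← mul_sub, abs_mul, abs_of_nonneg (hp i)]
        exact mul_le_mul_of_nonneg_left (h _) (hp i)
    _ = c := by rw [← Finset.sum_mul, hs, one_mul]

lemma FinMean.abs_le {Ω : Type u} {L : (Ω → ℝ) → ℝ} (hL : FinMean L) {φ : Ω → ℝ} {c : ℝ}
    (h : ∀ x, |φ x| ≤ c) : |L φ| ≤ c := by
  have h1 := hL.bound (φ := φ) (ψ := fun _ => 0) (c := c) (by simpa using h)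
  have h2 : L (fun _ => 0) = 0 := by
    obtain ⟨ι, _, p, x, hp, hs, hL⟩ := hL
    rw [hL]; simp
  rwa [h2, sub_zero] at h1

lemma finMean_dirac {Ω : Type u} (x : Ω) : FinMean (fun φ : Ω → ℝ => φ x) :=
  ⟨Unit, inferInstance, fun _ => 1, fun _ => x, by simp, by simp, by simp⟩

lemma FinMean.map {Ω : Type u} {Ω' : Type v} {L : (Ω → ℝ) → ℝ} (hL : FinMean L) (g : Ω → Ω') :
    FinMean (fun φ : Ω' → ℝ => L (fun x => φ (g x))) := by
  obtain ⟨ι, _, p, x, hp, hs, hL⟩ := hL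
  exact ⟨ι, inferInstance, p, fun i => g (x i), hp, hs, fun φ => hL _⟩

lemma FinMean.bind {Ω : Type u} {Ω' : Type v} {L : (Ω → ℝ) → ℝ} (hL : FinMean L)
    {κ : Ω → (Ω' → ℝ) → ℝ} (hκ : ∀ ω, FinMean (κ ω)) :
    FinMean (fun φ : Ω' → ℝ => L (fun ω => κ ω φ)) := by
  classical
  obtain ⟨ι, _, p, x, hp, hs, hL⟩ := hL
  choose ι' hι' p' x' hp' hs' hκ' using hκ
  refine ⟨Σ i, ι' (x i), inferInstance, fun q => p q.1 * p' (x q.1) q.2,
    fun q => x' (x q.1) q.2, fun q => mul_nonneg (hp _) (hp' _ _), ?_, fun φ => ?_⟩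
  · rw [Fintype.sum_sigma]
    simp only
    rw [← hs]
    refine Finset.sum_congr rfl fun i _ => ?_
    rw [← Finset.mul_sum, hs' (x i), mul_one]
  · show L _ = _
    rw [hL, Fintype.sum_sigma]
    refine Finset.sum_congr rfl fun i _ => ?_
    rw [hκ', Finset.mul_sum]
    refine Finset.sum_congr rfl fun j _ => ?_
    ring

/-- A group acting on a set with an almost invariant finite mean such that the stabilisers are
locally almost invariant has almost invariant finite means. -/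
lemma ainv_of_action {G : Type u} [Group G] {Ω : Type v} (act : G → Ω → Ω)
    (h1 : ∀ ω, act 1 ω = ω) (hmul : ∀ g h ω, act (g * h) ω = act g (act h ω))
    (C : Ω → Prop) (hC : ∀ g ω, C ω → C (act g ω)) (S : Set G) (hS : S.Finite) (ε ε' : ℝ)
    (hε' : 0 ≤ ε')
    {ι : Type} [Fintype ι] (p : ι → ℝ) (x : ι → Ω) (hp : ∀ i, 0 ≤ p i) (hs : ∑ i, p i = 1)
    (hx : ∀ i, C (x i))
    (hinv : ∀ s ∈ S, ∀ φ : Ω → ℝ, (∀ ω, |φ ω| ≤ 1) →
      |∑ i, p i * φ (act s (x i)) - ∑ i, p i * φ (x i)| ≤ ε)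
    (hst : ∀ ω, C ω → ∀ F : Set G, F.Finite → (∀ h ∈ F, act h ω = ω) → AInv F ε') :
    AInv S (ε + ε') := by
  classical
  -- orbit representatives
  let st : Setoid Ω := ⟨fun a b => ∃ g, act g a = b, fun a => ⟨1, h1 a⟩,
    fun {a b} ⟨g, hg⟩ => ⟨g⁻¹, by rw [← hg, ← hmul, inv_mul_cancel, h1]⟩,
    fun {a b c} ⟨g, hg⟩ ⟨h, hh⟩ => ⟨h * g, by rw [hmul, hg, hh]⟩⟩
  let r : Ω → Ω := fun ω => (Quotient.mk st ω).out
  have hr : ∀ ω, ∃ g, act g (r ω) = ω := fun ω => Quotient.exact (Quotient.out_eq (Quotient.mk st ω))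
  have hrr : ∀ g ω, r (act g ω) = r ω := by
    intro g ω
    have : Quotient.mk st (act g ω) = Quotient.mk st ω := Quotient.sound ⟨g⁻¹, by
      rw [← hmul, inv_mul_cancel, h1]⟩
    show (Quotient.mk st (act g ω)).out = (Quotient.mk st ω).out
    rw [this]
  choose γ hγ using hr
  have hCr : ∀ ω, C ω → C (r ω) := by
    intro ω hω
    have h2 : act (γ ω)⁻¹ ω = r ω := by
      calc act (γ ω)⁻¹ ω = act (γ ω)⁻¹ (act (γ ω) (r ω)) := by rw [hγ]
        _ = r ω := by rw [← hmul, inv_mul_cancel, h1]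
    rw [← h2]
    exact hC _ _ hω
  -- the finite set of stabiliser elements
  let h : G → Ω → G := fun s ω => (γ (act s ω))⁻¹ * s * γ ω
  have hh : ∀ s ω, act (h s ω) (r ω) = r ω := by
    intro s ω
    show act ((γ (act s ω))⁻¹ * s * γ ω) (r ω) = r ω
    rw [hmul, hmul, hγ ω]
    have h3 := hγ (act s ω)
    rw [hrr] at h3
    calc act (γ (act s ω))⁻¹ (act s ω)
        = act (γ (act s ω))⁻¹ (act (γ (act s ω)) (r ω)) := by rw [h3]
      _ = r ω := by rw [← hmul, inv_mul_cancel, h1]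
  let F : Ω → Set G := fun ρ => {g | ∃ s ∈ S, ∃ i, r (x i) = ρ ∧ g = h s (x i)}
  have hF : ∀ ρ, (F ρ).Finite := by
    intro ρ
    have : F ρ ⊆ (fun q : G × ι => h q.1 (x q.2)) '' (S ×ˢ Set.univ) := by
      rintro g ⟨s, hs, i, _, rfl⟩
      exact ⟨(s, i), ⟨hs, Set.mem_univ _⟩, rfl⟩
    exact ((hS.prod Set.finite_univ).image _).subset this
  have hκ : ∀ ρ, ∃ L : (G → ℝ) → ℝ, FinMean L ∧ (C ρ → ∀ s ∈ F ρ, ∀ φ : G → ℝ,
      (∀ x, |φ x| ≤ 1) → |L (fun x => φ (s * x)) - L φ| ≤ ε') := by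
    intro ρ
    by_cases hρ : C ρ
    · obtain ⟨L, hL1, hL2⟩ := hst ρ hρ (F ρ) (hF ρ) (by
        rintro g ⟨s, _, i, hi, rfl⟩
        rw [← hi]; exact hh s (x i))
      exact ⟨L, hL1, fun _ => hL2⟩
    · exact ⟨_, finMean_dirac 1, fun hc => absurd hc hρ⟩
  choose κ hκ1 hκ2 using hκ
  have hbase : FinMean (fun φ : Ω → ℝ => ∑ i, p i * φ (x i)) :=
    ⟨ι, inferInstance, p, x, hp, hs, fun _ => rfl⟩
  have hcomp : ∀ ω, FinMean (fun φ : G → ℝ => κ (r ω) (fun y => φ (γ ω * y))) :=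
    fun ω => (hκ1 (r ω)).map _
  refine ⟨_, hbase.bind hcomp, fun s hsS φ hφ => ?_⟩
  simp only
  -- Φ ω = κ (φ (γ ω *))
  set Φ : Ω → ℝ := fun ω => κ (r ω) (fun y => φ (γ ω * y)) with hΦ
  have hΦ1 : ∀ ω, |Φ ω| ≤ 1 := fun ω => (hκ1 (r ω)).abs_le fun y => hφ _
  have e1 : |∑ i, p i * κ (r (x i)) (fun y => φ (s * (γ (x i) * y))) -
      ∑ i, p i * Φ (act s (x i))| ≤ ε' := by
    rw [← Finset.sum_sub_distrib]
    calc |∑ i, (p i * κ (r (x i)) (fun y => φ (s * (γ (x i) * y))) - p i * Φ (act s (x i)))|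
        ≤ ∑ i, |p i * κ (r (x i)) (fun y => φ (s * (γ (x i) * y))) - p i * Φ (act s (x i))| :=
          Finset.abs_sum_le_sum_abs _ _
      _ ≤ ∑ i, p i * ε' := by
          refine Finset.sum_le_sum fun i _ => ?_
          rw [← mul_sub, abs_mul, abs_of_nonneg (hp i)]
          refine mul_le_mul_of_nonneg_left ?_ (hp i)
          have e2 := hκ2 (r (x i)) (hCr _ (hx i)) (h s (x i)) ⟨s, hsS, i, rfl, rfl⟩
            (fun y => φ (γ (act s (x i)) * y)) (fun y => hφ _)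
          have e3 : (fun y => φ (γ (act s (x i)) * (h s (x i) * y))) =
              fun y => φ (s * (γ (x i) * y)) := by
            funext y
            congr 1
            show γ (act s (x i)) * ((γ (act s (x i)))⁻¹ * s * γ (x i) * y) = _
            group
          rw [e3] at e2
          have e4 : Φ (act s (x i)) = κ (r (x i)) (fun y => φ (γ (act s (x i)) * y)) := by
            rw [hΦ]
            simp only
            rw [hrr]
          rw [e4]
          exact e2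
      _ = ε' := by rw [← Finset.sum_mul, hs, one_mul]
  have e5 := hinv s hsS Φ hΦ1
  calc |∑ i, p i * κ (r (x i)) (fun y => φ (s * (γ (x i) * y))) - ∑ i, p i * Φ (x i)|
      ≤ |∑ i, p i * κ (r (x i)) (fun y => φ (s * (γ (x i) * y))) -
          ∑ i, p i * Φ (act s (x i))| +
        |∑ i, p i * Φ (act s (x i)) - ∑ i, p i * Φ (x i)| := abs_sub_le _ _ _
    _ ≤ ε + ε' := by linarith

end Pool.Agent.JM
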