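import Pool.Agent.JM.Core

/-!
# Stabilisers of cuts
-/

namespace Pool.Agent.JM

open MeasureTheory Filter Set

universe u v

/-! ### Commuting elements -/

lemma ainv_commuting {G : Type v} [Group G] (F : Set G) (hF : F.Finite)
    (hcomm : ∀ g ∈ F, ∀ h ∈ F, g * h = h * g) {ε : ℝ} (hε : 0 < ε) : AInv F ε := by
  induction F, hF using Set.Finite.induction_on with
  | empty => exact ⟨_, finMean_dirac 1, by simp⟩
  | @insert a F _ _ ih =>
    obtain ⟨L, hL, hinv⟩ := ih fun g hg h hh =>
      hcomm g (Set.mem_insert_of_mem _ hg) h (Set.mem_insert_of_mem _ hh)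
    obtain ⟨n, hn⟩ := exists_nat_gt (2 / ε)
    have hn0 : 0 < (n : ℝ) := lt_trans (by positivity) hn
    have hbase : FinMean (fun φ : G → ℝ => ∑ i : Fin n, (n : ℝ)⁻¹ * φ (a ^ (i : ℕ))) := by
      refine ⟨Fin n, inferInstance, fun _ => (n : ℝ)⁻¹, fun i => a ^ (i : ℕ), fun _ => by
        positivity, ?_, fun _ => rfl⟩
      rw [Finset.sum_const, Finset.card_univ, Fintype.card_fin, nsmul_eq_mul,
        mul_inv_cancel₀ hn0.ne']
    have hcomp : ∀ g : G, FinMean (fun φ : G → ℝ => L (fun x => φ (g * x))) :=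
      fun g => hL.map _
    refine ⟨_, hbase.bind hcomp, fun s hs φ hφ => ?_⟩
    simp only
    rcases Set.mem_insert_iff.1 hs with rfl | hs
    · -- telescoping
      have e1 : ∀ k : ℕ, L (fun x => φ (s * (s ^ k * x))) = L (fun x => φ (s ^ (k + 1) * x)) := by
        intro k
        congr 1
        funext x
        rw [pow_succ', mul_assoc]
      simp only [e1]
      rw [Fin.sum_univ_eq_sum_range (fun k => (n : ℝ)⁻¹ * L (fun x => φ (s ^ (k + 1) * x))),
        Fin.sum_univ_eq_sum_range (fun k => (n : ℝ)⁻¹ * L (fun x => φ (s ^ k * x))),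
        ← Finset.sum_sub_distrib,
        Finset.sum_range_sub (fun k => (n : ℝ)⁻¹ * L (fun x => φ (s ^ k * x))), ← mul_sub,
        abs_mul, abs_of_pos (inv_pos.2 hn0)]
      have e2 : |L (fun x => φ (s ^ n * x)) - L (fun x => φ (s ^ 0 * x))| ≤ 2 := by
        refine hL.bound fun x => ?_
        have h1 := abs_le.1 (hφ (s ^ n * x))
        have h2 := abs_le.1 (hφ (s ^ 0 * x))
        rw [abs_le]
        constructor <;> linarith [h1.1, h1.2, h2.1, h2.2]
      calc (n : ℝ)⁻¹ * |L (fun x => φ (s ^ n * x)) - L (fun x => φ (s ^ 0 * x))|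
          ≤ (n : ℝ)⁻¹ * 2 := mul_le_mul_of_nonneg_left e2 (inv_pos.2 hn0).le
        _ ≤ ε := by
            rw [inv_mul_le_iff₀ hn0]
            rw [div_lt_iff₀ hε] at hn
            linarith
    · have hsa : ∀ k : ℕ, s * a ^ k = a ^ k * s := fun k =>
        (show Commute s a from hcomm s (Set.mem_insert_of_mem _ hs) a
          (Set.mem_insert _ _)).pow_right k
      rw [← Finset.sum_sub_distrib]
      calc |∑ i : Fin n, ((n : ℝ)⁻¹ * L (fun x => φ (s * (a ^ (i : ℕ) * x))) -
            (n : ℝ)⁻¹ * L (fun x => φ (a ^ (i : ℕ) * x)))|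
          ≤ ∑ i : Fin n, |(n : ℝ)⁻¹ * L (fun x => φ (s * (a ^ (i : ℕ) * x))) -
            (n : ℝ)⁻¹ * L (fun x => φ (a ^ (i : ℕ) * x))| := Finset.abs_sum_le_sum_abs _ _
        _ ≤ ∑ i : Fin n, (n : ℝ)⁻¹ * ε := by
            refine Finset.sum_le_sum fun i _ => ?_
            rw [← mul_sub, abs_mul, abs_of_pos (inv_pos.2 hn0)]
            refine mul_le_mul_of_nonneg_left ?_ (inv_pos.2 hn0).le
            have h1 := hinv s hs (fun x => φ (a ^ (i : ℕ) * x)) (fun x => hφ _)
            have h2 : (fun x => φ (s * (a ^ (i : ℕ) * x))) =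
                fun x => φ (a ^ (i : ℕ) * (s * x)) := by
              funext x
              rw [← mul_assoc, hsa, mul_assoc]
            rw [h2]
            exact h1
        _ = ε := by
            rw [Finset.sum_const, Finset.card_univ, Fintype.card_fin, nsmul_eq_mul,
              ← mul_assoc, mul_inv_cancel₀ hn0.ne', one_mul]

lemma AInv.of_hom {G H : Type*} [Group G] [Group H] (i : H →* G) {S : Set H} {ε : ℝ}
    (h : AInv S ε) : AInv (i '' S) ε := by
  obtain ⟨L, hL, hinv⟩ := h
  refine ⟨_, hL.map i, ?_⟩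
  rintro _ ⟨s, hs, rfl⟩ φ hφ
  have h1 := hinv s hs (fun x => φ (i x)) (fun x => hφ _)
  have h2 : (fun x => φ (i (s * x))) = fun x => φ (i s * i x) := by
    funext x
    rw [map_mul]
  rw [h2] at h1
  exact h1

/-- a group with a finite quotient whose kernel is abelian -/
lemma ainv_of_finite_quotient {H : Type v} [Group H] {Y : Type*} [Group Y] [Finite Y]
    (Φ : H →* Y) (hcomm : ∀ g h, Φ g = 1 → Φ h = 1 → g * h = h * g) (S : Set H)
    (hS : S.Finite) {ε : ℝ} (hε : 0 < ε) : AInv S ε := by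
  classical
  obtain ⟨N, ⟨e⟩⟩ := Finite.exists_equiv_fin Y
  have hN : 0 < (N : ℝ) := by
    have : 0 < N := Fin.pos (e 1)
    exact_mod_cast this
  have h := ainv_of_action (fun (h : H) (y : Y) => Φ h * y) (by simp)
    (fun g h ω => by rw [map_mul, mul_assoc]) (fun _ => True) (fun _ _ _ => trivial) S hS 0 ε
    hε.le (fun _ : Fin N => (N : ℝ)⁻¹) (fun i => e.symm i) (fun _ => (inv_pos.2 hN).le)
    (by rw [Finset.sum_const, Finset.card_univ, Fintype.card_fin, nsmul_eq_mul,
          mul_inv_cancel₀ hN.ne']) (fun _ => trivial) ?_ ?_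
  · simpa using h
  · intro s _ φ _
    have h1 : ∑ i, (N : ℝ)⁻¹ * φ (Φ s * e.symm i) = ∑ i, (N : ℝ)⁻¹ * φ (e.symm i) := by
      refine Fintype.sum_equiv (e.symm.trans ((Equiv.mulLeft (Φ s)).trans e)) _ _ fun i => ?_
      simp
    rw [h1, sub_self, abs_zero]
  · intro ω _ F hF hFω
    refine ainv_commuting F hF (fun g hg h hh => hcomm g h ?_ ?_) hε
    · exact mul_eq_right.1 (hFω g hg)
    · exact mul_eq_right.1 (hFω h hh)

/-! ### Subgroups with finite orbits -/

variable {X : Type u} [MeasurableSpace X]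

section

variable {μ : Measure X} {T : X ≃ᵐ X} {G : Type v} [Group G] {a : G → X → ℤ} {f : G → X → ℂ}

/-- the points whose orbit under `H` has at most `n` points -/
def small (a : G → X → ℤ) (H : Subgroup G) (n : ℕ) : Set X :=
  {y | ∀ t : Fin (n + 1) → H, ¬ Function.Injective fun i => a (t i : G) y}

lemma measurable_small [Countable G] (h : Sys μ T a f) (H : Subgroup G) (n : ℕ) :
    MeasurableSet (small a H n) := by
  have : small a H n = ⋂ t : Fin (n + 1) → H, ⋃ i : Fin (n + 1), ⋃ j : Fin (n + 1),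
      {y | i ≠ j ∧ a (t i : G) y = a (t j : G) y} := by
    ext y
    simp only [small, mem_ofPred_eq, mem_iInter, mem_iUnion, Function.Injective]
    refine forall_congr' fun t => ?_
    push Not
    constructor
    · rintro ⟨i, j, h1, h2⟩
      exact ⟨i, j, h2, h1⟩
    · rintro ⟨i, j, h1, h2⟩
      exact ⟨i, j, h2, h1⟩
  rw [this]
  refine MeasurableSet.iInter fun t => MeasurableSet.iUnion fun i => MeasurableSet.iUnion
    fun j => ?_
  have h2 : {y | i ≠ j ∧ a (t i : G) y = a (t j : G) y} =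
      {_y | i ≠ j} ∩ {y | a (t i : G) y = a (t j : G) y} := rfl
  rw [h2]
  exact (MeasurableSet.const _).inter (measurableSet_eq_fun (h.meas_a _) (h.meas_a _))

omit [MeasurableSpace X] in
lemma small_mono (a : G → X → ℤ) (H : Subgroup G) : Monotone (small a H) := by
  intro n m hnm y hy t ht
  refine hy (fun i => t (Fin.castLE (by omega) i)) ?_
  exact ht.comp (Fin.castLE_injective _)

omit [MeasurableSpace X] in
lemma mem_small_of_bound (a : G → X → ℤ) (H : Subgroup G) {y : X} {c d : ℤ}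
    (h : ∀ g ∈ H, c ≤ a g y ∧ a g y < d) : y ∈ small a H (d - c).toNat := by
  intro t ht
  have h1 := Fintype.card_le_of_injective
    (fun i => (⟨a (t i : G) y, Finset.mem_Ico.2 (h _ (t i).2)⟩ : Finset.Ico c d))
    (fun i j hij => ht (congrArg Subtype.val hij))
  simp only [Fintype.card_fin, Fintype.card_coe, Int.card_Ico] at h1
  omega

/-- almost all orbits of the stabiliser of a cut are finite -/
lemma ae_small [Countable G] [IsProbabilityMeasure μ] (h : Sys μ T a f) (hT : Ergodic T μ)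
    (F : Finset G) (E : Set ℤ) (hE : {j : ℤ | ¬ (j ∈ E ↔ 0 ≤ j)}.Finite)
    (hF : μ (pres T a F E) ≠ 0) :
    ∀ᵐ y ∂μ, ∃ n, y ∈ small a (Subgroup.closure (F : Set G)) n := by
  obtain ⟨r, hr⟩ : ∃ r : ℤ, (∀ j, r ≤ j → j ∈ E) ∧ ∀ j, j < -r → j ∉ E := by
    obtain ⟨b, hb⟩ := hE.bddAbove
    obtain ⟨c, hc⟩ := hE.bddBelow
    refine ⟨max 0 (max (b + 1) (1 - c)), fun j hj => ?_, fun j hj => ?_⟩
    · have h1 : b + 1 ≤ j := le_trans (le_trans (le_max_left _ _) (le_max_right _ _)) hj
      have h2 : 0 ≤ j := le_trans (le_max_left _ _) hj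
      by_contra hc'
      have : j ≤ b := hb (show j ∈ {j : ℤ | ¬ (j ∈ E ↔ 0 ≤ j)} from fun h3 => hc' (h3.2 h2))
      omega
    · have h1 : 1 - c ≤ max 0 (max (b + 1) (1 - c)) :=
        le_trans (le_max_right _ _) (le_max_right _ _)
      have h2 : 0 ≤ max 0 (max (b + 1) (1 - c)) := le_max_left _ _
      intro hj'
      have : c ≤ j := hc (show j ∈ {j : ℤ | ¬ (j ∈ E ↔ 0 ≤ j)} from fun h3 => by
        have := h3.1 hj'
        omega)
      omega
  filter_upwards [h.ae_good hT.toMeasurePreserving, recurrence hT (measurable_pres h F E) hF]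
    with y hy hrec
  obtain ⟨m₁, hm₁, h1⟩ := (hrec (r + 1)).1
  obtain ⟨m₂, hm₂, h2⟩ := (hrec (-r)).2
  refine ⟨_, mem_small_of_bound a _ (c := m₂ - r) (d := m₁ + r) fun g hg => ?_⟩
  have e1 := hy.closure_pres h1 hg 0
  have e2 := hy.closure_pres h2 hg 0
  have e3 : pos T a g y 0 = a g y := by
    unfold pos
    rw [pw_zero, zero_add]
  rw [e3] at e1 e2
  constructor
  · by_contra hc
    exact hr.2 _ (by omega) (e2.1 (hr.1 _ (by omega)))
  · by_contra hc
    exact hr.2 _ (by omega) (e1.2 (hr.1 _ (by omega)))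

/-- elements acting trivially in all actions on `n` points act trivially on small orbits -/
lemma GoodPt.zero_of_hom {y : X} (hy : GoodPt T a f y) (H : Subgroup G) {n : ℕ}
    (hn : y ∈ small a H n) {h : H} (hh : ∀ φ : H →* Equiv.Perm (Fin n), φ h = 1) :
    a (h : G) y = 0 := by
  classical
  have e0 : ∀ g : G, pos T a g y 0 = a g y := by
    intro g
    unfold pos
    rw [pw_zero, zero_add]
  -- the stabiliser
  let St : Subgroup H :=
    { carrier := {g | a (g : G) y = 0}
      mul_mem' := by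
        intro g k hg hk
        show a ((g * k : H) : G) y = 0
        rw [← e0, Subgroup.coe_mul, hy.pos_mul, e0, show a (g : G) y = 0 from hg, e0]
        exact hk
      one_mem' := by
        show a ((1 : H) : G) y = 0
        rw [← e0, Subgroup.coe_one, hy.pos_one]
      inv_mem' := by
        intro g hg
        show a ((g⁻¹ : H) : G) y = 0
        have h1 : pos T a ((g : G) * (g : G)⁻¹) y 0 = 0 := by
          rw [mul_inv_cancel, hy.pos_one]
        rw [hy.pos_mul, e0, show a (g : G) y = 0 from hg, e0] at h1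
        exact h1 }
  have hcard : Nonempty (H ⧸ St ↪ Fin n) := by
    by_contra hc
    have h3 : Nonempty (Fin (n + 1) ↪ H ⧸ St) := by
      rcases finite_or_infinite (H ⧸ St) with hfi | hinf
      · have := Fintype.ofFinite (H ⧸ St)
        refine Function.Embedding.nonempty_of_card_le ?_
        by_contra h1
        apply hc
        refine Function.Embedding.nonempty_of_card_le ?_
        simp only [Fintype.card_fin] at h1 ⊢
        omega
      · exact ⟨(Fin.valEmbedding).trans (Infinite.natEmbedding _)⟩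
    obtain ⟨ψ⟩ := h3
    refine hn (fun i => ((ψ i).out)⁻¹) fun i j hij => ψ.injective ?_
    have h4 : a ((((ψ i).out)⁻¹ : H) : G) y = a ((((ψ j).out)⁻¹ : H) : G) y := hij
    rw [← Quotient.out_eq' (ψ i), ← Quotient.out_eq' (ψ j)]
    rw [QuotientGroup.eq]
    show a (((ψ i).out⁻¹ * (ψ j).out : H) : G) y = 0
    rw [← e0, Subgroup.coe_mul, hy.pos_mul, e0, h4, ← e0 ((((ψ j).out)⁻¹ : H) : G), ← hy.pos_mul,
      ← Subgroup.coe_mul, inv_mul_cancel, Subgroup.coe_one, hy.pos_one]
  obtain ⟨ι⟩ := hcard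
  have h5 := hh ((Equiv.Perm.viaEmbeddingHom ι).comp (MulAction.toPermHom H (H ⧸ St)))
  have h6 : MulAction.toPermHom H (H ⧸ St) h = 1 := by
    apply Equiv.Perm.viaEmbeddingHom_injective ι
    rw [map_one]
    exact h5
  have h7 : h • ((1 : H) : H ⧸ St) = ((1 : H) : H ⧸ St) := by
    have := congrArg (fun p : Equiv.Perm (H ⧸ St) => p ((1 : H) : H ⧸ St)) h6
    exact this
  have h8 : ((h : H) : H ⧸ St) = ((1 : H) : H ⧸ St) := by
    have h9 : h • ((1 : H) : H ⧸ St) = ((h * 1 : H) : H ⧸ St) := rfl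
    rw [h9, mul_one] at h7
    exact h7
  have h10 : h ∈ St := by
    have := QuotientGroup.eq.1 h8.symm
    simpa using this
  exact h10

end

end Pool.Agent.JM
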