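import Pool.Agent.JM.Stab

/-!
# Stabilisers of cuts are locally virtually abelian
-/

namespace Pool.Agent.JM

open MeasureTheory Filter Set

universe u v

variable {X : Type u} [MeasurableSpace X]

variable {μ : Measure X} {T : X ≃ᵐ X} {G : Type v} [Group G] {a : G → X → ℤ} {f : G → X → ℂ}

lemma exists_small [Countable G] [IsProbabilityMeasure μ] (h : Sys μ T a f) (H : Subgroup G)
    (hae : ∀ᵐ y ∂μ, ∃ n, y ∈ small a H n) {δ : ℝ} (hδ : 0 < δ) :
    ∃ n, μ.real (small a H n)ᶜ < δ := by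
  have h1 : Tendsto (μ ∘ small a H) atTop (nhds (μ (⋃ n, small a H n))) :=
    tendsto_measure_iUnion_atTop (small_mono a H)
  have h2 : μ (⋃ n, small a H n) = 1 := by
    rw [← mem_ae_iff_prob_eq_one (MeasurableSet.iUnion fun n => measurable_small h H n)]
    filter_upwards [hae] with y hy
    exact mem_iUnion.2 hy
  rw [h2] at h1
  have h3 : Tendsto (fun n => μ.real (small a H n)) atTop (nhds 1) := by
    have := (ENNReal.tendsto_toReal (ENNReal.one_ne_top)).comp h1
    rw [ENNReal.toReal_one] at this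
    exact this
  obtain ⟨n, hn⟩ := (h3.eventually (lt_mem_nhds (show (1 : ℝ) - δ < 1 by linarith))).exists
  refine ⟨n, ?_⟩
  rw [probReal_compl_eq_one_sub (measurable_small h H n)]
  linarith

lemma re_integral_ge [IsProbabilityMeasure μ] {Z D : Set X} (hZ : MeasurableSet Z)
    (hD : MeasurableSet D) {F : X → ℂ} (hF : Measurable F) (hF1 : ∀ᵐ x ∂μ, ‖F x‖ = 1)
    (hD1 : ∀ᵐ x ∂μ, x ∈ D → x ∈ Z ∧ F x = 1) :
    1 - 2 * μ.real Dᶜ ≤ (∫ x in Z, F x ∂μ).re := by
  have hint : Integrable (Z.indicator F) μ := by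
    refine Integrable.of_bound (hF.indicator hZ).aestronglyMeasurable 1 ?_
    filter_upwards [hF1] with x hx
    by_cases hxZ : x ∈ Z
    · rw [indicator_of_mem hxZ, hx]
    · rw [indicator_of_notMem hxZ]; simp
  have h1 : ∫ x in Z, F x ∂μ = ∫ x, Z.indicator F x ∂μ := (integral_indicator hZ).symm
  have h2 : (1 : ℂ) - ∫ x in Z, F x ∂μ = ∫ x, ((1 : ℂ) - Z.indicator F x) ∂μ := by
    rw [integral_sub (integrable_const _) hint, h1]
    simp
  have h3 : ‖∫ x, ((1 : ℂ) - Z.indicator F x) ∂μ‖ ≤ ∫ x, Dᶜ.indicator (fun _ => (2 : ℝ)) x ∂μ := by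
    refine norm_integral_le_of_norm_le ?_ ?_
    · exact (integrable_const _).indicator hD.compl
    · filter_upwards [hF1, hD1] with x hx hxD
      by_cases hxd : x ∈ D
      · obtain ⟨e1, e2⟩ := hxD hxd
        rw [indicator_of_mem e1, e2]
        simp [hxd]
      · rw [indicator_of_mem (show x ∈ Dᶜ from hxd)]
        refine (norm_sub_le _ _).trans ?_
        have : ‖Z.indicator F x‖ ≤ 1 := by
          by_cases hxZ : x ∈ Z
          · rw [indicator_of_mem hxZ, hx]
          · rw [indicator_of_notMem hxZ]; simp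
        simp only [norm_one]
        linarith
  rw [integral_indicator hD.compl, setIntegral_const, smul_eq_mul, ← h2] at h3
  have h4 : ((1 : ℂ) - ∫ x in Z, F x ∂μ).re ≤ ‖(1 : ℂ) - ∫ x in Z, F x ∂μ‖ :=
    Complex.re_le_norm _
  rw [Complex.sub_re, Complex.one_re] at h4
  linarith

lemma GoodPt.coc0 {y : X} (hy : GoodPt T a f y) (g h : G) :
    a (g * h) y = a g y + a h (pw T (a g y) y) ∧
    f (g * h) y = f g y * f h (pw T (a g y) y) := by
  have := hy.coc 0 g h
  rwa [pw_zero] at this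

/-- commutators of elements acting trivially on small orbits are trivial -/
lemma GoodPt.commutator {y : X} (hy : GoodPt T a f y) {g h : G} (h1 : a g y = 0) (h2 : a h y = 0)
    (h3 : a g⁻¹ y = 0) (h4 : a h⁻¹ y = 0) :
    a (g * h * g⁻¹ * h⁻¹) y = 0 ∧ f (g * h * g⁻¹ * h⁻¹) y = 1 := by
  have e1 := hy.coc0 g h
  rw [h1, pw_zero, h2, add_zero] at e1
  have e2 := hy.coc0 (g * h) g⁻¹
  rw [e1.1, pw_zero, h3, add_zero, e1.2] at e2
  have e3 := hy.coc0 (g * h * g⁻¹) h⁻¹
  rw [e2.1, pw_zero, h4, add_zero, e2.2] at e3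
  have e4 := (hy.coc0 g g⁻¹).2
  rw [h1, pw_zero, mul_inv_cancel] at e4
  have e5 := (hy.coc0 h h⁻¹).2
  rw [h2, pw_zero, mul_inv_cancel] at e5
  have e6 := (hy.one 0).2
  rw [pw_zero] at e6
  rw [e6] at e4 e5
  refine ⟨e3.1, ?_⟩
  rw [e3.2]
  calc f g y * f h y * f g⁻¹ y * f h⁻¹ y = (f g y * f g⁻¹ y) * (f h y * f h⁻¹ y) := by ring
    _ = 1 := by rw [← e4, ← e5, one_mul]

theorem ainv_stab [Countable G] [IsProbabilityMeasure μ] (h : Sys μ T a f) (hT : Ergodic T μ)
    (F : Finset G) (E : Set ℤ) (hE : {j : ℤ | ¬ (j ∈ E ↔ 0 ≤ j)}.Finite)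
    (hF : μ (pres T a F E) ≠ 0) {ε₀ : ℝ} (hε₀ : 0 < ε₀)
    (hgap : ∀ g : G, g ≠ 1 → (∫ x in {x | a g x = 0}, f g x ∂μ).re ≤ 1 - ε₀) {ε : ℝ}
    (hε : 0 < ε) : AInv (F : Set G) ε := by
  classical
  set H := Subgroup.closure (F : Set G) with hH
  obtain ⟨n, hn⟩ := exists_small h H (ae_small h hT F E hE hF) (δ := ε₀ / 2) (by positivity)
  -- finitely many homomorphisms
  have hfin : Finite (H →* Equiv.Perm (Fin n)) := by
    refine Finite.of_injective (β := F → Equiv.Perm (Fin n))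
      (fun φ s => φ ⟨s, Subgroup.subset_closure s.2⟩) fun φ ψ hφψ => ?_
    refine MonoidHom.eq_of_eqOn_dense (s := ((↑) : H → G) ⁻¹' (F : Set G)) ?_ ?_
    · rw [hH]; exact Subgroup.closure_closure_coe_preimage
    · intro s hs
      exact congrFun hφψ ⟨(s : G), hs⟩
  let Φ : H →* ((φ : H →* Equiv.Perm (Fin n)) → Equiv.Perm (Fin n)) := MonoidHom.pi fun φ => φ
  have hcomm : ∀ g k : H, Φ g = 1 → Φ k = 1 → g * k = k * g := by
    intro g k hg hk
    have hg' : ∀ φ : H →* Equiv.Perm (Fin n), φ g = 1 := fun φ => congrFun hg φ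
    have hk' : ∀ φ : H →* Equiv.Perm (Fin n), φ k = 1 := fun φ => congrFun hk φ
    have hgi : ∀ φ : H →* Equiv.Perm (Fin n), φ g⁻¹ = 1 := fun φ => by rw [map_inv, hg', inv_one]
    have hki : ∀ φ : H →* Equiv.Perm (Fin n), φ k⁻¹ = 1 := fun φ => by rw [map_inv, hk', inv_one]
    by_contra hne
    set c : G := (g : G) * k * (g : G)⁻¹ * (k : G)⁻¹ with hc
    have hc1 : c ≠ 1 := by
      intro hc1
      apply hne
      apply Subtype.ext
      rw [hc, mul_inv_eq_one, mul_inv_eq_iff_eq_mul] at hc1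
      exact hc1
    have h1 := hgap c hc1
    have h2 := re_integral_ge (μ := μ) (Z := {x | a c x = 0}) (D := small a H n)
      (measurableSet_eq_fun (h.meas_a c) measurable_const) (measurable_small h H n)
      (h.meas_f c) (h.norm_f c) ?_
    · linarith
    · filter_upwards [h.ae_good hT.toMeasurePreserving] with y hy hyD
      have f1 := hy.zero_of_hom H hyD hg'
      have f2 := hy.zero_of_hom H hyD hk'
      have f3 := hy.zero_of_hom H hyD hgi
      have f4 := hy.zero_of_hom H hyD hki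
      exact hy.commutator f1 f2 f3 f4
  have h5 := ainv_of_finite_quotient Φ hcomm (((↑) : H → G) ⁻¹' (F : Set G))
    (Set.Finite.preimage (Subtype.val_injective.injOn) F.finite_toSet) hε
  have h6 := h5.of_hom H.subtype
  have h7 : (H.subtype '' (((↑) : H → G) ⁻¹' (F : Set G))) = (F : Set G) := by
    ext s
    constructor
    · rintro ⟨t, ht, rfl⟩
      exact ht
    · intro hs
      exact ⟨⟨s, Subgroup.subset_closure hs⟩, hs, rfl⟩
  rwa [h7] at h6

end Pool.Agent.JM
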